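import Pool.Agent.Lib.MP_a4e5f3_nt.Inst

/-!
# The pull-back by `X² - 2` and the end of the proof
-/

namespace MPa4e5f3

open Polynomial Finset

/-- Pull-back by `X² - 2`. -/
noncomputable def pb (A : ℤ[X]) : ℤ[X] := A.comp (X ^ 2 - 2)

theorem pb_mul (A B : ℤ[X]) : pb (A * B) = pb A * pb B := by simp [pb]

theorem pb_pow (A : ℤ[X]) (n : ℕ) : pb (A ^ n) = pb A ^ n := by simp [pb]

theorem TT_pb (A B : ℤ[X]) (p : ℕ) [Fact p.Prime] (h2 : ((2 : ℤ) : ZMod p) ≠ 0) :
    TT (pb A) (pb B) p = TT A B p + TT ((X - C (-2)) ^ 2 * A) ((X - C (-2)) ^ 3 * B) p := by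
  have hF := two_ne p h2
  rw [TT_twist _ _ _ p h2]
  have h4 := sum_quad hF (fun t => SS (ev p t A) (ev p t B))
  have h5 : TT (pb A) (pb B) p = ∑ z : ZMod p, (fun t => SS (ev p t A) (ev p t B)) (z ^ 2 - 2) := by
    unfold TT pb
    apply sum_congr rfl
    intro z _
    rw [ev_comp, ev_comp]
    have h6 : ev p z (X ^ 2 - 2) = z ^ 2 - 2 := by
      rw [map_sub, map_pow, ev_X, map_ofNat]
    rw [h6]
  rw [h5, h4]
  unfold TT
  rw [← sum_add_distrib]
  apply sum_congr rfl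
  intro t _
  have g1 : ev p t (X - C (-2)) = t + 2 := by
    rw [map_sub, ev_X, ev_C]
    push_cast
    ring
  rw [g1]
  ring

theorem rk_pb (A B : ℤ[X]) : rk (toQ (pb A)) (toQ (pb B)) = rk (toQ A) (toQ B) +
    rk (toQ ((X - C (-2)) ^ 2 * A)) (toQ ((X - C (-2)) ^ 3 * B)) := by
  unfold pb
  rw [toQ_comp_qd, toQ_comp_qd, rk_qd]
  have g1 : toQ (X - C (-2)) = xx + 2 := by
    rw [map_sub, toQ_X, toQ_C]
    push_cast
    ring
  simp only [map_mul, map_pow, g1]

theorem vec_pb {A B : ℤ[X]} (h1 : Fin' A B) (h2 : Fin' ((X - C (-2)) ^ 2 * A) ((X - C (-2)) ^ 3 * B)) :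
    qq (vec (pb A) (pb B)) = qq (vec A B) + yy (X - C (-2)) A B := by
  unfold yy
  rw [← map_add]
  apply qq_eq_of_finite
  · apply (finite_bad (n := 2) two_ne_zero).subset
    intro p hp
    by_contra h
    apply hp
    simp only [Prod.fst_add, Pi.add_apply, vec]
    rw [TT_pb A B p h]
    push_cast
    ring
  · simp only [Prod.snd_add, vec]
    rw [rk_pb, Cardinal.toNat_add h1 h2]
    push_cast
    ring

theorem nonsplit_pb {A B : ℤ[X]} (hE : NonSplit A B) (hg : Gd A B (-2)) :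
    NonSplit (pb A) (pb B) := by
  constructor
  · intro h0
    have h1 : pb (4 * A ^ 3 + 27 * B ^ 2) = 0 := by
      rw [← h0]
      simp [pb]
    have h2 : sub _ NC_qd (toQ (4 * A ^ 3 + 27 * B ^ 2)) = 0 := by
      rw [← toQ_comp_qd]
      change toQ (pb _) = 0
      rw [h1, map_zero]
    have h3 : toQ (4 * A ^ 3 + 27 * B ^ 2) = 0 := (sub _ NC_qd).injective (by rw [h2, map_zero])
    exact toQ_ne_zero hE.1 h3
  · rintro ⟨u, hu, a, b, ha, hb⟩
    unfold pb at ha hb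
    rw [toQ_comp_qd] at ha hb
    have hne := const_ne hE (sub _ NC_qd) ha hb
    obtain ⟨w, hw, h | h⟩ := ns_qd hu ha hb hne
    · exact hE.2 ⟨w, hw, a, b, h.1, h.2⟩
    · have hR : Rt (X - C (-2)) A B := ⟨-2, 1, by ring, by simp, hg⟩
      refine Rt_false hR ⟨w, hw, ?_, ?_⟩ (α := a) (β := b)
      · rw [h.1, map_sub, toQ_X, toQ_C]
        push_cast
        ring
      · rw [h.2, map_sub, toQ_X, toQ_C]
        push_cast
        ring

theorem gd_pb {A B : ℤ[X]} (c : ℤ) (h : Gd A B (c ^ 2 - 2)) : Gd (pb A) (pb B) c := by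
  unfold Gd pb at *
  intro h0
  apply h
  rw [← h0]
  simp [eval_comp]

theorem shift_vec (A B : ℤ[X]) (c : ℤ) : vec (A.comp (X + C c)) (B.comp (X + C c)) = vec A B ∧
    rk (toQ (A.comp (X + C c))) (toQ (B.comp (X + C c))) = rk (toQ A) (toQ B) := by
  have h1 : rk (toQ (A.comp (X + C c))) (toQ (B.comp (X + C c))) = rk (toQ A) (toQ B) := by
    rw [toQ_comp_shift, toQ_comp_shift]
    symm
    exact rk_iso _ (shift_surj c) one_ne_zero (by ring) (by ring)
  refine ⟨?_, h1⟩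
  unfold vec
  rw [h1]
  congr 1
  funext p
  congr 2
  have h2 : TT (A.comp (X + C c)) (B.comp (X + C c)) p = TT A B p := by
    unfold TT
    apply Fintype.sum_equiv (Equiv.addRight ((c : ℤ) : ZMod (p : ℕ)))
    intro t
    rw [ev_comp, ev_comp, Equiv.coe_addRight, map_add, ev_X, ev_C]
  rw [h2]

theorem nonsplit_shift {A B : ℤ[X]} (hE : NonSplit A B) (c : ℤ) :
    NonSplit (A.comp (X + C c)) (B.comp (X + C c)) := by
  constructor
  · intro h0
    apply hE.1
    have h1 : (4 * A ^ 3 + 27 * B ^ 2).comp (X + C c) = 0 := by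
      rw [← h0]; simp
    have h2 : ((4 * A ^ 3 + 27 * B ^ 2).comp (X + C c)).comp (X - C c) = 4 * A ^ 3 + 27 * B ^ 2 := by
      rw [comp_assoc]; simp
    rw [← h2, h1, zero_comp]
  · rintro ⟨u, hu, a, b, ha, hb⟩
    rw [toQ_comp_shift] at ha hb
    obtain ⟨v, hv⟩ := shift_surj c u
    apply hE.2
    refine ⟨v, ?_, a, b, ?_, ?_⟩
    · rintro rfl
      apply hu
      rw [← hv, map_zero]
    · apply (sub _ (NC_shift c)).injective
      rw [ha, map_mul, map_pow, hv, sub_C]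
    · apply (sub _ (NC_shift c)).injective
      rw [hb, map_mul, map_pow, hv, sub_C]

/-- The theorem when `±2` are points of good reduction. -/
theorem main_good {A B : ℤ[X]} (H : HP A B) (H' : HP (pb A) (pb B)) (hE : NonSplit A B) (hp : Gd A B 2) (hm : Gd A B (-2)) :
    qq (vec A B) = 0 ∧ Fin' A B := by
  obtain ⟨r1, f0, fm, fp, fmp⟩ := relA H hE (P := -2) (Q := 2) (m := 2) (by norm_num) two_ne_zero hm hp
  refine ⟨?_, f0⟩
  have hE' := nonsplit_pb hE hm
  have gp' : Gd (pb A) (pb B) 2 := gd_pb 2 (by norm_num; exact hp)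
  have gm' : Gd (pb A) (pb B) (-2) := gd_pb (-2) (by norm_num; exact hp)
  have v1 := vec_pb f0 fm
  -- the twist by `X² - 4` of the pull-back
  have e1 : ((X - C (-2)) * (X - C 2) : ℤ[X]) = pb (X - C 2) := by
    unfold pb
    rw [sub_comp, X_comp, C_comp]
    simp only [map_neg, map_ofNat]
    ring
  have f2 : Fin' ((X - C (-2)) ^ 2 * ((X - C 2) ^ 2 * A)) ((X - C (-2)) ^ 3 * ((X - C 2) ^ 3 * B)) := by
    have g1 : (X - C (-2)) ^ 2 * ((X - C 2) ^ 2 * A) = ((X - C (-2)) * (X - C 2)) ^ 2 * A := by ring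
    have g2 : (X - C (-2)) ^ 3 * ((X - C 2) ^ 3 * B) = ((X - C (-2)) * (X - C 2)) ^ 3 * B := by ring
    rw [g1, g2]
    exact fmp
  have v2 : yy ((X - C (-2)) * (X - C 2)) (pb A) (pb B) =
      yy (X - C 2) A B + yy ((X - C (-2)) * (X - C 2)) A B := by
    unfold yy
    have g1 : ((X - C (-2)) * (X - C 2)) ^ 2 * pb A = pb ((X - C 2) ^ 2 * A) := by
      rw [pb_mul, pb_pow, e1]
    have g2 : ((X - C (-2)) * (X - C 2)) ^ 3 * pb B = pb ((X - C 2) ^ 3 * B) := by
      rw [pb_mul, pb_pow, e1]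
    rw [g1, g2, vec_pb fp f2]
    unfold yy
    congr 3
    · ring
    · ring
  have L1 := lemL H hE hm
  have L2 := lemL H' hE' gm'
  have L3 := lemL H' hE' gp'
  have r2 := (relA H' hE' (P := -2) (Q := 2) (m := 2) (by norm_num) two_ne_zero gm' gp').1
  rw [v2] at r2
  rw [v1] at r2 L2 L3
  generalize qq (vec A B) = x at *
  generalize yy (X - C (-2)) A B = ym at *
  generalize yy (X - C 2) A B = yp at *
  generalize yy ((X - C (-2)) * (X - C 2)) A B = ymp at *
  generalize yy (X - C (-2)) (pb A) (pb B) = ym' at *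
  generalize yy (X - C 2) (pb A) (pb B) = yp' at *
  linear_combination (norm := module) (-(9 / 4) : ℂ) • r2 + (3 / 4 : ℂ) • (L2 + L3)
    + (9 / 4 : ℂ) • r1 - (1 / 2 : ℂ) • L1

theorem exists_shift {A B : ℤ[X]} (hE : 4 * A ^ 3 + 27 * B ^ 2 ≠ 0) :
    ∃ c : ℤ, Gd (A.comp (X + C c)) (B.comp (X + C c)) 2 ∧
      Gd (A.comp (X + C c)) (B.comp (X + C c)) (-2) := by
  have hfin : {t : ℤ | (4 * A ^ 3 + 27 * B ^ 2).IsRoot t}.Finite :=
    Polynomial.finite_setOfPred_isRoot hE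
  obtain ⟨R, hR⟩ := hfin.bddAbove
  have key : ∀ e : ℤ, -2 ≤ e → Gd (A.comp (X + C (R + 3))) (B.comp (X + C (R + 3))) e := by
    intro e he h0
    have h1 : (4 * A ^ 3 + 27 * B ^ 2).IsRoot (e + (R + 3)) := by
      rw [IsRoot, ← h0]
      simp [eval_comp]
    have h2 : e + (R + 3) ≤ R := hR h1
    linarith
  exact ⟨R + 3, key 2 (by norm_num), key (-2) (by norm_num)⟩

theorem psi_pullback {A : ℤ[X]} {α β γ δ : ℤ} {k : ℕ} (hA : A.natDegree < k)
    (hdet : α * δ - β * γ ≠ 0) : toQ (hg k A (kl α β) (kl γ δ)) = toQ (kl γ δ) ^ k *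
      A.eval₂ (Int.castRingHom QX) (toQ (kl α β) / toQ (kl γ δ)) :=
  hg_div toQ _ _ hA.le (kl_ne (cd_ne hdet))

theorem kl_deg (α β : ℤ) : (kl α β).natDegree ≤ 4 := (kl_pal α β).1

theorem pull1 {A B : ℤ[X]} {c α β γ δ : ℤ} {k : ℕ} (hdet : α * δ - β * γ ≠ 0)
    (hA : (A.comp (X + C c)).natDegree < 4 * k) (hB : (B.comp (X + C c)).natDegree < 6 * k) :
    IsPullback A B (hg (4 * k) (A.comp (X + C c)) (kl α β) (kl γ δ))
      (hg (6 * k) (B.comp (X + C c)) (kl α β) (kl γ δ)) := by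
  have hM := kl_ne (cd_ne hdet)
  have hf : ∀ P : ℤ[X], (P.comp (X + C c)).eval₂ (Int.castRingHom QX)
      (toQ (kl α β) / toQ (kl γ δ)) = P.eval₂ (Int.castRingHom QX)
        (toQ (kl α β + C c * kl γ δ) / toQ (kl γ δ)) := by
    intro P
    rw [eval₂_comp]
    congr 1
    rw [eval₂_add, eval₂_X, eval₂_C, map_add, map_mul, toQ_C, add_div, mul_div_assoc,
      div_self hM, mul_one]
    rfl
  refine ⟨kl α β + C c * kl γ δ, kl γ δ, ?_, ?_, ?_, toQ (kl γ δ) ^ k, pow_ne_zero _ hM, ?_, ?_⟩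
  · have h1 := kl_deg α β
    have h2 := (natDegree_C_mul_le c (kl γ δ)).trans (kl_deg γ δ)
    have h3 := natDegree_add_le (kl α β) (C c * kl γ δ)
    omega
  · have := kl_deg γ δ
    omega
  · intro h0
    rw [h0, map_zero] at hM
    exact hM rfl
  · rw [psi_pullback hA hdet, hf, ← pow_mul, mul_comm k 4]
  · rw [psi_pullback hB hdet, hf, ← pow_mul, mul_comm k 6]

theorem pull2 {A B : ℤ[X]} {c α β γ δ : ℤ} {k : ℕ} (hdet : α * δ - β * γ ≠ 0)
    (hA : (pb (A.comp (X + C c))).natDegree < 4 * k)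
    (hB : (pb (B.comp (X + C c))).natDegree < 6 * k) :
    IsPullback A B (hg (4 * k) (pb (A.comp (X + C c))) (kl α β) (kl γ δ))
      (hg (6 * k) (pb (B.comp (X + C c))) (kl α β) (kl γ δ)) := by
  have hM := kl_ne (cd_ne hdet)
  have hf : ∀ P : ℤ[X], (pb (P.comp (X + C c))).eval₂ (Int.castRingHom QX)
      (toQ (kl α β) / toQ (kl γ δ)) = P.eval₂ (Int.castRingHom QX)
        (toQ (kl α β ^ 2 + C (c - 2) * kl γ δ ^ 2) / toQ (kl γ δ ^ 2)) := by
    intro P
    unfold pb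
    rw [eval₂_comp, eval₂_comp]
    congr 1
    rw [eval₂_add, eval₂_X, eval₂_C, eval₂_sub, eval₂_pow, eval₂_X, eval₂_ofNat, map_add, map_mul,
      toQ_C, map_pow, map_pow, add_div, mul_div_assoc, div_self (pow_ne_zero 2 hM), mul_one, div_pow,
      eq_intCast]
    push_cast
    ring
  refine ⟨kl α β ^ 2 + C (c - 2) * kl γ δ ^ 2, kl γ δ ^ 2, ?_, ?_, ?_, toQ (kl γ δ) ^ k,
    pow_ne_zero _ hM, ?_, ?_⟩
  · have h1 := kl_deg α β
    have h2 := kl_deg γ δ
    have h3 := natDegree_pow_le (p := kl α β) (n := 2)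
    have h4 := natDegree_pow_le (p := kl γ δ) (n := 2)
    have h5 := natDegree_C_mul_le (c - 2) (kl γ δ ^ 2)
    have h6 := natDegree_add_le (kl α β ^ 2) (C (c - 2) * kl γ δ ^ 2)
    omega
  · have h2 := kl_deg γ δ
    have h4 := natDegree_pow_le (p := kl γ δ) (n := 2)
    omega
  · intro h0
    have h1 : toQ (kl γ δ ^ 2) = 0 := by rw [h0, map_zero]
    rw [map_pow] at h1
    exact pow_ne_zero 2 hM h1
  · rw [psi_pullback hA hdet, hf, ← pow_mul, mul_comm k 4]
  · rw [psi_pullback hB hdet, hf, ← pow_mul, mul_comm k 6]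

/-- The analytic Nagao property of a surface follows from that of its pull-backs of degree at most
`8` which are invariant under the Klein four-group. -/
theorem main {A B : ℤ[X]} (hE : NonSplit A B)
    (H : ∀ A' B', IsPullback A B A' B' → NonSplit A' B' → KleinInvariant A' B' →
      AnalyticNagao A' B') : AnalyticNagao A B := by
  obtain ⟨c, h1, h2⟩ := exists_shift hE.1
  have H1 : HP (A.comp (X + C c)) (B.comp (X + C c)) := by
    intro α β γ δ k hdet hA hB hns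
    exact H _ _ (pull1 hdet hA hB) hns (hg_klein k _ _ α β γ δ)
  have H2 : HP (pb (A.comp (X + C c))) (pb (B.comp (X + C c))) := by
    intro α β γ δ k hdet hA hB hns
    exact H _ _ (pull2 hdet hA hB) hns (hg_klein k _ _ α β γ δ)
  obtain ⟨h3, h4⟩ := main_good H1 H2 (nonsplit_shift hE c) h1 h2
  obtain ⟨h5, h6⟩ := shift_vec A B c
  rw [h5] at h3
  unfold Fin' at h4
  rw [h6] at h4
  exact nagao_of_qq h3 h4

end MPa4e5f3
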