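import Mathlib

/-!
# Counting: character sums of fibres over a finite field
-/

namespace MPa4e5f3

open Finset

variable {F : Type*} [Field F] [Fintype F] [DecidableEq F]

/-- The character sum `∑_x χ(x³ + a x + b)`, `χ` the quadratic character of `F`. -/
def SS (a b : F) : ℤ := ∑ x : F, quadraticChar F (x ^ 3 + a * x + b)

theorem card_sq (hF : ringChar F ≠ 2) (a : F) :
    ((univ.filter (fun x : F => x ^ 2 = a)).card : ℤ) = quadraticChar F a + 1 := by
  rw [← quadraticChar_card_sqrts hF a]
  congr 2
  ext x
  simp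

theorem card_curve (hF : ringChar F ≠ 2) (a b : F) :
    ((univ.filter (fun q : F × F => q.2 ^ 2 = q.1 ^ 3 + a * q.1 + b)).card : ℤ) =
      Fintype.card F + SS a b := by
  have h1 : (univ.filter (fun q : F × F => q.2 ^ 2 = q.1 ^ 3 + a * q.1 + b)).card =
      ∑ x : F, (univ.filter (fun y : F => y ^ 2 = x ^ 3 + a * x + b)).card := by
    rw [card_filter, Fintype.sum_prod_type]
    apply sum_congr rfl
    intro x _
    rw [card_filter]
  rw [h1]
  push_cast
  simp only [card_sq hF]
  rw [sum_add_distrib, SS, add_comm]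
  simp

theorem SS_zero (hF : ringChar F ≠ 2) : SS (0 : F) 0 = 0 := by
  unfold SS
  rw [← quadraticChar_sum_zero hF]
  apply sum_congr rfl
  intro x _
  rw [zero_mul, add_zero, add_zero, map_pow]
  by_cases hx : x = 0
  · rw [hx, quadraticChar_zero]; rfl
  · rw [pow_succ, quadraticChar_sq_one hx, one_mul]

theorem SS_twist (hF : ringChar F ≠ 2) (D a b : F) :
    SS (D ^ 2 * a) (D ^ 3 * b) = quadraticChar F D * SS a b := by
  by_cases hD : D = 0
  · subst hD
    rw [quadraticChar_zero, zero_mul]
    have h1 : (0 : F) ^ 2 * a = 0 := by ring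
    have h2 : (0 : F) ^ 3 * b = 0 := by ring
    rw [h1, h2, SS_zero hF]
  · unfold SS
    rw [mul_sum]
    symm
    apply Fintype.sum_equiv (Equiv.mulLeft₀ D hD)
    intro x
    rw [← map_mul, Equiv.mulLeft₀_apply]
    have h3 : (D * x) ^ 3 + D ^ 2 * a * (D * x) + D ^ 3 * b = D ^ 2 * (D * (x ^ 3 + a * x + b)) := by
      ring
    rw [h3, map_mul (quadraticChar F) (D ^ 2), quadraticChar_sq_one' hD, one_mul]

theorem SS_scale (hF : ringChar F ≠ 2) {g : F} (hg : g ≠ 0) (a b : F) :
    SS (g ^ 4 * a) (g ^ 6 * b) = SS a b := by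
  have h := SS_twist hF (g ^ 2) a b
  rw [quadraticChar_sq_one' hg, one_mul] at h
  rw [← h]
  congr 1 <;> ring

theorem count_klein (hF : ringChar F ≠ 2) {u v : F} (huv : u ≠ 0 ∨ v ≠ 0) :
    ((univ.filter (fun z : F => u * (z ^ 4 + 1) = v * z ^ 2)).card : ℤ) =
      1 + quadraticChar F ((v + 2 * u) * u) + quadraticChar F ((v - 2 * u) * u)
        + quadraticChar F ((v + 2 * u) * (v - 2 * u)) - (if u = 0 then 1 else 0) := by
  have h2 : (2 : F) ≠ 0 := Ring.two_ne_zero hF
  by_cases hu : u = 0
  · subst hu
    have hv : v ≠ 0 := by simpa using huv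
    have h1 : (univ.filter (fun z : F => (0 : F) * (z ^ 4 + 1) = v * z ^ 2)) = {0} := by
      ext z
      simp only [mem_filter, mem_univ, true_and, zero_mul, mem_singleton]
      constructor
      · intro h
        rcases mul_eq_zero.mp h.symm with h | h
        · exact absurd h hv
        · exact pow_eq_zero_iff two_ne_zero |>.mp h
      · rintro rfl
        ring
    rw [h1, card_singleton]
    simp only [mul_zero, add_zero, sub_zero, if_true, quadraticChar_zero]
    have h3 : v * v = v ^ 2 := by ring
    rw [h3, quadraticChar_sq_one' hv]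
    rfl
  · rw [if_neg hu, sub_zero]
    set s := v / u with hs
    have hv : v = s * u := by rw [hs]; field_simp
    have e1 : (v + 2 * u) * u = u ^ 2 * (s + 2) := by rw [hv]; ring
    have e2 : (v - 2 * u) * u = u ^ 2 * (s - 2) := by rw [hv]; ring
    have e3 : (v + 2 * u) * (v - 2 * u) = u ^ 2 * ((s + 2) * (s - 2)) := by rw [hv]; ring
    rw [e1, e2, e3, map_mul, map_mul, map_mul, quadraticChar_sq_one' hu, map_mul]
    have h4 : (univ.filter (fun z : F => u * (z ^ 4 + 1) = v * z ^ 2)).card =
        ((univ.filter (fun w : F => w ^ 2 = s + 2)) ×ˢ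
          (univ.filter (fun w : F => w ^ 2 = s - 2))).card := by
      apply card_nbij' (fun z => (z + z⁻¹, z - z⁻¹)) (fun w => (w.1 + w.2) / 2)
      · intro z hz
        simp only [coe_filter, mem_univ, true_and, Set.mem_ofPred_eq] at hz
        have hz0 : z ≠ 0 := by
          rintro rfl
          apply hu
          simpa using hz
        have hz' : z ^ 4 + 1 = s * z ^ 2 := by
          apply mul_left_cancel₀ hu
          rw [hz, hv]; ring
        simp only [coe_product, coe_filter, mem_univ, true_and, Set.mem_prod, Set.mem_ofPred_eq]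
        constructor
        · field_simp
          linear_combination hz'
        · field_simp
          linear_combination hz'
      · rintro ⟨w, w'⟩ hw
        simp only [coe_product, coe_filter, mem_univ, true_and, Set.mem_prod, Set.mem_ofPred_eq] at hw
        obtain ⟨h5, h6⟩ := hw
        simp only [coe_filter, mem_univ, true_and, Set.mem_ofPred_eq]
        rw [hv]
        have h7 : (w + w') * (w - w') = 4 := by linear_combination h5 - h6
        have h8 : ((w + w') / 2) ^ 4 + 1 = s * ((w + w') / 2) ^ 2 := by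
          have hxy : ((w + w') / 2) * ((w - w') / 2) = 1 := by
            field_simp
            linear_combination h7
          have hs' : ((w + w') / 2) ^ 2 + ((w - w') / 2) ^ 2 = s := by
            field_simp
            linear_combination 2 * h5 + 2 * h6
          linear_combination ((w + w') / 2) ^ 2 * hs' -
            (((w + w') / 2) * ((w - w') / 2) + 1) * hxy
        rw [h8]
        ring
      · intro z hz
        simp only
        have : z + z⁻¹ + (z - z⁻¹) = 2 * z := by ring
        rw [this, mul_div_cancel_left₀ _ h2]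
      · rintro ⟨w, w'⟩ hw
        simp only [coe_product, coe_filter, mem_univ, true_and, Set.mem_prod, Set.mem_ofPred_eq] at hw
        obtain ⟨h5, h6⟩ := hw
        have h4' : (4 : F) ≠ 0 := by
          have : (4 : F) = 2 * 2 := by norm_num
          rw [this]; exact mul_ne_zero h2 h2
        have h7 : (w + w') * (w - w') = 4 := by linear_combination h5 - h6
        have h8 : w + w' ≠ 0 := by
          intro h0
          rw [h0, zero_mul] at h7
          exact h4' h7.symm
        have h9 : ((w + w') / 2)⁻¹ = (w - w') / 2 := by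
          rw [inv_eq_of_mul_eq_one_right]
          field_simp
          linear_combination h7
        simp only [h9, Prod.mk.injEq]
        constructor
        · field_simp; ring
        · field_simp; ring
    rw [h4, card_product]
    push_cast
    rw [card_sq hF, card_sq hF]
    ring

/-- Summation over the fibres of the Klein cover `z ↦ (α(z⁴+1) + βz²)/(γ(z⁴+1) + δz²)`. -/
theorem sum_klein (hF : ringChar F ≠ 2) {α β γ δ : F} (h : α * δ - β * γ ≠ 0) (g : F → ℤ) :
    ∑ z : F, (if γ * (z ^ 4 + 1) + δ * z ^ 2 = 0 then 0 else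
      g ((α * (z ^ 4 + 1) + β * z ^ 2) / (γ * (z ^ 4 + 1) + δ * z ^ 2))) =
    ∑ t : F, (1 + quadraticChar F (((δ - 2 * γ) * t - β + 2 * α) * (α - γ * t))
      + quadraticChar F (((δ + 2 * γ) * t - β - 2 * α) * (α - γ * t))
      + quadraticChar F (((δ - 2 * γ) * t - β + 2 * α) * ((δ + 2 * γ) * t - β - 2 * α))
      - (if α - γ * t = 0 then 1 else 0)) * g t := by
  have h1 : ∀ t : F, ((univ.filter (fun z : F =>
      (α - γ * t) * (z ^ 4 + 1) = (δ * t - β) * z ^ 2)).card : ℤ) =
      (1 + quadraticChar F (((δ - 2 * γ) * t - β + 2 * α) * (α - γ * t))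
      + quadraticChar F (((δ + 2 * γ) * t - β - 2 * α) * (α - γ * t))
      + quadraticChar F (((δ - 2 * γ) * t - β + 2 * α) * ((δ + 2 * γ) * t - β - 2 * α))
      - (if α - γ * t = 0 then 1 else 0)) := by
    intro t
    have huv : α - γ * t ≠ 0 ∨ δ * t - β ≠ 0 := by
      by_contra h2
      push Not at h2
      apply h
      linear_combination δ * h2.1 + γ * h2.2
    rw [count_klein hF huv]
    have e1 : δ * t - β + 2 * (α - γ * t) = (δ - 2 * γ) * t - β + 2 * α := by ring
    have e2 : δ * t - β - 2 * (α - γ * t) = (δ + 2 * γ) * t - β - 2 * α := by ring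
    rw [e1, e2]
  have h2 : ∀ t : F, ((univ.filter (fun z : F =>
      (α - γ * t) * (z ^ 4 + 1) = (δ * t - β) * z ^ 2)).card : ℤ) * g t =
      ∑ z : F, (if (α - γ * t) * (z ^ 4 + 1) = (δ * t - β) * z ^ 2 then g t else 0) := by
    intro t
    rw [← sum_filter, sum_const, nsmul_eq_mul]
  simp_rw [← h1, h2]
  rw [sum_comm]
  apply sum_congr rfl
  intro z _
  by_cases hM : γ * (z ^ 4 + 1) + δ * z ^ 2 = 0
  · rw [if_pos hM]
    symm
    apply sum_eq_zero
    intro t _
    rw [if_neg]
    intro h3
    have hN : α * (z ^ 4 + 1) + β * z ^ 2 = 0 := by linear_combination h3 + t * hM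
    have h4 : (α * δ - β * γ) * z ^ 2 = 0 := by linear_combination α * hM - γ * hN
    have h5 : z = 0 := by
      rcases mul_eq_zero.mp h4 with h5 | h5
      · exact absurd h5 h
      · exact pow_eq_zero_iff two_ne_zero |>.mp h5
    subst h5
    have h6 : γ = 0 := by simpa using hM
    have h7 : α = 0 := by simpa using hN
    apply h
    rw [h6, h7]; ring
  · rw [if_neg hM]
    set t0 := (α * (z ^ 4 + 1) + β * z ^ 2) / (γ * (z ^ 4 + 1) + δ * z ^ 2) with ht0
    rw [sum_eq_single t0]
    · rw [if_pos]
      have : t0 * (γ * (z ^ 4 + 1) + δ * z ^ 2) = α * (z ^ 4 + 1) + β * z ^ 2 := by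
        rw [ht0, div_mul_cancel₀ _ hM]
      linear_combination -this
    · intro t _ ht
      rw [if_neg]
      intro h3
      apply ht
      rw [ht0, eq_div_iff hM]
      linear_combination -h3
    · intro h3
      exact absurd (mem_univ _) h3

/-- Summation over the fibres of `z ↦ z² - 2`. -/
theorem sum_quad (hF : ringChar F ≠ 2) (g : F → ℤ) :
    ∑ z : F, g (z ^ 2 - 2) = ∑ t : F, (1 + quadraticChar F (t + 2)) * g t := by
  have h2 : ∀ t : F, (1 + quadraticChar F (t + 2)) * g t =
      ∑ z : F, (if z ^ 2 = t + 2 then g t else 0) := by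
    intro t
    rw [← sum_filter, sum_const, nsmul_eq_mul, card_sq hF, add_comm]
  simp_rw [h2]
  rw [sum_comm]
  apply sum_congr rfl
  intro z _
  rw [sum_eq_single (z ^ 2 - 2)]
  · rw [if_pos (by ring)]
  · intro t _ ht
    rw [if_neg]
    intro h3
    apply ht
    rw [h3]; ring
  · intro h3
    exact absurd (mem_univ _) h3

end MPa4e5f3
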