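import Mathlib

/-!
# The analytic Nagao property of an elliptic surface `y² = x³ + A(T)x + B(T)`
-/

namespace MPa4e5f3

open Polynomial

/-- The image in `ℚ(T)` of a polynomial with integral coefficients. -/
noncomputable def toQ : ℤ[X] →+* RatFunc ℚ :=
  (algebraMap ℚ[X] (RatFunc ℚ)).comp (Polynomial.mapRingHom (Int.castRingHom ℚ))

/-- `y² = x³ + A(T)x + B(T)` is nonsingular and not isomorphic over `ℚ(T)` to a curve
`y² = x³ + ax + b` with `a, b ∈ ℚ`. -/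
def NonSplit (A B : ℤ[X]) : Prop :=
  4 * A ^ 3 + 27 * B ^ 2 ≠ 0 ∧
  ¬ ∃ u : RatFunc ℚ, u ≠ 0 ∧ ∃ a b : ℚ,
    toQ A = u ^ 4 * RatFunc.C a ∧ toQ B = u ^ 6 * RatFunc.C b

/-- The number of `𝔽_p`-points of the projective cubic `y² = x³ + ax + b`, the point at infinity
included. -/
noncomputable def numPoints (p : ℕ) (a b : ZMod p) : ℕ :=
  Nat.card {q : ZMod p × ZMod p // q.2 ^ 2 = q.1 ^ 3 + a * q.1 + b} + 1

/-- `a_p(ℰ_t) = p + 1 - N_p(t)`. -/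
noncomputable def trace (A B : ℤ[X]) (p : ℕ) (t : ℤ) : ℤ :=
  p + 1 - numPoints p ((A.eval t : ℤ) : ZMod p) ((B.eval t : ℤ) : ZMod p)

/-- The fibral average `A_p(ℰ) = (1/p) ∑_{t=0}^{p-1} a_p(ℰ_t)`. -/
noncomputable def fibralAverage (A B : ℤ[X]) (p : ℕ) : ℂ :=
  (1 / (p : ℂ)) * ∑ t ∈ Finset.range p, (trace A B p t : ℂ)

open Classical in
/-- The rank of `ℰ(ℚ(T))`, as a cardinal. -/
noncomputable def mordellWeilRank (A B : ℤ[X]) : Cardinal :=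
  Module.rank ℤ (WeierstrassCurve.Affine.Point
    (WeierstrassCurve.toAffine (WeierstrassCurve.mk (0 : RatFunc ℚ) 0 0 (toQ A) (toQ B))))

/-- The general term `h(p) log p / p^s` of a Dirichlet series over the primes. -/
noncomputable def dterm (h : Nat.Primes → ℂ) (s : ℂ) (p : Nat.Primes) : ℂ :=
  h p * (Real.log (p : ℕ) : ℂ) / ((p : ℕ) : ℂ) ^ s

/-- `∑_p h(p) log p / p^s` converges absolutely for `Re s > 1`, extends meromorphically to a
neighbourhood of `s = 1`, and minus its residue at `s = 1` equals `r`. -/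
def HasNegResidue (h : Nat.Primes → ℂ) (r : ℂ) : Prop :=
  (∀ s : ℂ, 1 < s.re → Summable (dterm h s)) ∧
  ∃ ε : ℝ, 0 < ε ∧ ∃ G : ℂ → ℂ, MeromorphicAt G 1 ∧
    DifferentiableOn ℂ G (Metric.ball (1 : ℂ) ε \ {1}) ∧
    (∀ s ∈ Metric.ball (1 : ℂ) ε, 1 < s.re → G s = ∑' p, dterm h s p) ∧
    ∀ ρ : ℝ, 0 < ρ → ρ < ε → -((2 * Real.pi * Complex.I)⁻¹ * ∮ z in C(1, ρ), G z) = r

/-- The analytic Nagao property for `ℰ : y² = x³ + A(T)x + B(T)`: the rank of `ℰ(ℚ(T))` is finite,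
the series `D_ℰ(s) = ∑_p A_p(ℰ) log p / p^s` converges absolutely for `Re s > 1` and extends
meromorphically to a neighbourhood of `s = 1`, and `-Res_{s=1} D_ℰ(s)` is the rank. -/
def AnalyticNagao (A B : ℤ[X]) : Prop :=
  ∃ r : ℕ, mordellWeilRank A B = r ∧ HasNegResidue (fun p => fibralAverage A B p) r

/-- `P(-T) = P(T)` and `T^m P(1/T) = P(T)`. -/
def EvenReciprocal (m : ℕ) (P : ℤ[X]) : Prop :=
  P.comp (-X) = P ∧ P.natDegree ≤ m ∧ ∀ i ≤ m, P.coeff (m - i) = P.coeff i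

/-- `ℰ` is invariant under the Klein four-group generated by `T ↦ -T` and `T ↦ 1/T`:
`A` and `B` are even, and `T^{8n}A(1/T) = A(T)`, `T^{12n}B(1/T) = B(T)` for some `n`.
Equivalently, `A(T) = T^{4n} a(T² + T⁻²)` and `B(T) = T^{6n} b(T² + T⁻²)`, so that `ℰ` is isomorphic
to the pull-back of `y² = x³ + a(t)x + b(t)` by `t = T² + T⁻²`. -/
def KleinInvariant (A B : ℤ[X]) : Prop :=
  ∃ n : ℕ, EvenReciprocal (8 * n) A ∧ EvenReciprocal (12 * n) B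

/-- `y² = x³ + A'(T)x + B'(T)` is isomorphic over `ℚ(T)` to the pull-back of
`y² = x³ + A(T)x + B(T)` by a rational function `f = N/M` of degree at most `8`. -/
def IsPullback (A B A' B' : ℤ[X]) : Prop :=
  ∃ N M : ℤ[X], N.natDegree ≤ 8 ∧ M.natDegree ≤ 8 ∧ M ≠ 0 ∧ ∃ u : RatFunc ℚ, u ≠ 0 ∧
    toQ A' = u ^ 4 * A.eval₂ (Int.castRingHom (RatFunc ℚ)) (toQ N / toQ M) ∧
    toQ B' = u ^ 6 * B.eval₂ (Int.castRingHom (RatFunc ℚ)) (toQ N / toQ M)

end MPa4e5f3
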