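import Pool.Agent.Lib.MP_a4e5f3_nt.Rel2

/-!
# The special relations
-/

namespace MPa4e5f3

open Polynomial Finset

theorem rt_lin {A B : ℤ[X]} {P c : ℤ} (hc : c ≠ 0) (hP : Gd A B P) :
    Rt (C c ^ 2 * (X - C P)) A B := by
  refine ⟨P, C c ^ 2, by ring, ?_, hP⟩
  simp only [eval_pow, eval_C]
  exact pow_ne_zero 2 hc

theorem rt_quad {A B : ℤ[X]} {P Q c : ℤ} (hc : c ≠ 0) (hPQ : P ≠ Q) (hP : Gd A B P) :
    Rt (C c ^ 2 * ((X - C P) * (X - C Q))) A B := by
  refine ⟨P, C c ^ 2 * (X - C Q), by ring, ?_, hP⟩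
  simp only [eval_pow, eval_C, eval_mul, eval_sub, eval_X]
  exact mul_ne_zero (pow_ne_zero 2 hc) (sub_ne_zero.mpr hPQ)

theorem fib_zero_finite (A B : ℤ[X]) {α : ℤ} (hα : α ≠ 0) :
    {p : Nat.Primes | (0 : VV).1 p ≠ -(((∑ t : ZMod (p : ℕ),
      (if (α : ZMod (p : ℕ)) - (0 : ℤ) * t = 0 then 1 else 0) *
        SS (ev p t A) (ev p t B) : ℤ)) : ℂ) / ((p : ℕ) : ℂ)}.Finite := by
  apply (finite_bad hα).subset
  intro p hp
  by_contra h
  apply hp
  rw [sum_eq_zero]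
  · simp
  · intro t _
    rw [if_neg, zero_mul]
    rw [Int.cast_zero, zero_mul, sub_zero]
    exact h

theorem fib_finite (A B : ℤ[X]) {γ c : ℤ} (hγ : γ ≠ 0) :
    {p : Nat.Primes | (fib A B c).1 p ≠ -(((∑ t : ZMod (p : ℕ),
      (if ((γ * c : ℤ) : ZMod (p : ℕ)) - γ * t = 0 then 1 else 0) *
        SS (ev p t A) (ev p t B) : ℤ)) : ℂ) / ((p : ℕ) : ℂ)}.Finite := by
  apply (finite_bad hγ).subset
  intro p hp
  by_contra h
  apply hp
  rw [sum_eq_single ((c : ℤ) : ZMod (p : ℕ))]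
  · rw [if_pos, one_mul]
    · rfl
    · push_cast; ring
  · intro t _ ht
    rw [if_neg, zero_mul]
    intro h1
    apply ht
    have h2 : (γ : ZMod (p : ℕ)) * (c - t) = 0 := by
      push_cast at h1
      linear_combination h1
    rcases mul_eq_zero.mp h2 with h3 | h3
    · exact absurd h3 h
    · linear_combination -h3
  · intro h1
    exact absurd (mem_univ _) h1

theorem relA {A B : ℤ[X]} (H : HP A B) (hE : NonSplit A B) {P Q m : ℤ} (hm : Q - P = m ^ 2)
    (hm0 : m ≠ 0) (hP : Gd A B P) (hQ : Gd A B Q) :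
    qq (vec A B) + yy (X - C P) A B + yy (X - C Q) A B + yy ((X - C P) * (X - C Q)) A B = 0 ∧
      Fin' A B ∧ Fin' ((X - C P) ^ 2 * A) ((X - C P) ^ 3 * B) ∧
      Fin' ((X - C Q) ^ 2 * A) ((X - C Q) ^ 3 * B) ∧
      Fin' (((X - C P) * (X - C Q)) ^ 2 * A) (((X - C P) * (X - C Q)) ^ 3 * B) := by
  have hPQ : P ≠ Q := by
    rintro rfl
    rw [sub_self] at hm
    exact hm0 (pow_eq_zero_iff two_ne_zero |>.mp hm.symm)
  have hQ' : Q = P + m ^ 2 := by linear_combination hm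
  have e13 : D1 (m ^ 2) (2 * (P + Q)) 0 4 * D3 (m ^ 2) 0 = C (2 * m) ^ 2 * (X - C P) := by
    rw [hQ']
    unfold D1 D3
    simp only [map_sub, map_add, map_mul, map_pow, map_ofNat, map_zero]
    ring
  have e23 : D2 (m ^ 2) (2 * (P + Q)) 0 4 * D3 (m ^ 2) 0 = C (2 * m) ^ 2 * (X - C Q) := by
    rw [hQ']
    unfold D2 D3
    simp only [map_sub, map_add, map_mul, map_pow, map_ofNat, map_zero]
    ring
  have e12 : D1 (m ^ 2) (2 * (P + Q)) 0 4 * D2 (m ^ 2) (2 * (P + Q)) 0 4 =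
      C 4 ^ 2 * ((X - C P) * (X - C Q)) := by
    rw [hQ']
    unfold D1 D2
    simp only [map_sub, map_add, map_mul, map_pow, map_ofNat, map_zero]
    ring
  have hdet : m ^ 2 * 4 - 2 * (P + Q) * 0 ≠ 0 := by
    rw [mul_zero, sub_zero]
    exact mul_ne_zero (pow_ne_zero 2 hm0) (by norm_num)
  have h2m : 2 * m ≠ 0 := mul_ne_zero two_ne_zero hm0
  have h := rel H hE hdet (by rw [e13]; exact rt_lin h2m hP) (by rw [e23]; exact rt_lin h2m hQ)
    (by rw [e12]; exact rt_quad (by norm_num) hPQ hP) 0 rfl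
    (by simpa only using fib_zero_finite A B (pow_ne_zero 2 hm0))
  rw [e13, e23, e12, yy_scale h2m, yy_scale h2m, yy_scale (by norm_num), map_zero,
    fin_scale h2m, fin_scale h2m, fin_scale (by norm_num)] at h
  exact h

theorem relB {A B : ℤ[X]} (H : HP A B) (hE : NonSplit A B) {P R m : ℤ} (hm : R - P = m ^ 2)
    (hm0 : m ≠ 0) (hP : Gd A B P) (hR : Gd A B R) :
    qq (vec A B) + yy ((X - C P) * (X - C R)) A B + yy (X - C R) A B + yy (X - C P) A B =
      qq (fib A B R) := by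
  have hPR : P ≠ R := by
    rintro rfl
    rw [sub_self] at hm
    exact hm0 (pow_eq_zero_iff two_ne_zero |>.mp hm.symm)
  have hR' : R = P + m ^ 2 := by linear_combination hm
  have e13 : D1 (1 * R) (2 * R - 4 * P) 1 (-2) * D3 (1 * R) 1 =
      C 2 ^ 2 * ((X - C P) * (X - C R)) := by
    rw [hR']
    unfold D1 D3
    simp only [map_sub, map_add, map_mul, map_pow, map_ofNat, map_one, map_neg]
    ring
  have e23 : D2 (1 * R) (2 * R - 4 * P) 1 (-2) * D3 (1 * R) 1 =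
      C (2 * m) ^ 2 * (X - C R) := by
    rw [hR']
    unfold D2 D3
    simp only [map_sub, map_add, map_mul, map_pow, map_ofNat, map_one, map_neg]
    ring
  have e12 : D1 (1 * R) (2 * R - 4 * P) 1 (-2) * D2 (1 * R) (2 * R - 4 * P) 1 (-2) =
      C (4 * m) ^ 2 * (X - C P) := by
    rw [hR']
    unfold D1 D2
    simp only [map_sub, map_add, map_mul, map_pow, map_ofNat, map_one, map_neg]
    ring
  have hdet : (1 * R) * (-2) - (2 * R - 4 * P) * 1 ≠ 0 := by
    intro h0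
    apply hm0
    have h1 : m ^ 2 = 0 := by rw [hR'] at h0; linarith
    exact pow_eq_zero_iff two_ne_zero |>.mp h1
  have h2m : 2 * m ≠ 0 := mul_ne_zero two_ne_zero hm0
  have h4m : 4 * m ≠ 0 := mul_ne_zero (by norm_num) hm0
  have h := rel H hE hdet (by rw [e13]; exact rt_quad (by norm_num) hPR hP)
    (by rw [e23]; exact rt_lin h2m hR)
    (by rw [e12]; exact rt_lin h4m hP) (fib A B R) rfl
    (fib_finite A B one_ne_zero)
  rw [e13, e23, e12, yy_scale h2m, yy_scale h4m, yy_scale (by norm_num)] at h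
  exact h.1

theorem relC {A B : ℤ[X]} (H : HP A B) (hE : NonSplit A B) {a b c m₁ m₂ m₃ : ℤ}
    (h₁ : b - a = m₁ ^ 2) (h₂ : c - a = m₂ ^ 2) (h₃ : c - b = m₃ ^ 2)
    (hm₁ : m₁ ≠ 0) (hm₂ : m₂ ≠ 0) (hm₃ : m₃ ≠ 0)
    (ha : Gd A B a) (hb : Gd A B b) :
    qq (vec A B) + yy ((X - C b) * (X - C c)) A B + yy ((X - C a) * (X - C c)) A B
      + yy ((X - C a) * (X - C b)) A B = qq (fib A B c) := by
  have hab : a ≠ b := by
    rintro rfl
    rw [sub_self] at h₁
    exact hm₁ (pow_eq_zero_iff two_ne_zero |>.mp h₁.symm)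
  have hac : a ≠ c := by
    rintro rfl
    rw [sub_self] at h₂
    exact hm₂ (pow_eq_zero_iff two_ne_zero |>.mp h₂.symm)
  have hbc : b ≠ c := by
    rintro rfl
    rw [sub_self] at h₃
    exact hm₃ (pow_eq_zero_iff two_ne_zero |>.mp h₃.symm)
  have C₁ : C b - C a = C m₁ ^ 2 := by rw [← C_sub, h₁, C_pow]
  have C₂ : C c - C a = C m₂ ^ 2 := by rw [← C_sub, h₂, C_pow]
  have C₃ : C c - C b = C m₃ ^ 2 := by rw [← C_sub, h₃, C_pow]
  have e13 : D1 ((b - a) * c) (4 * a * b - 2 * b * c - 2 * a * c) (b - a) (2 * a + 2 * b - 4 * c)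
      * D3 ((b - a) * c) (b - a) = C (2 * m₁ * m₂) ^ 2 * ((X - C b) * (X - C c)) := by
    unfold D1 D3
    simp only [map_sub, map_add, map_mul, map_ofNat]
    linear_combination 4 * ((X - C b) * (X - C c)) * ((C c - C a) * C₁ + C m₁ ^ 2 * C₂)
  have e23 : D2 ((b - a) * c) (4 * a * b - 2 * b * c - 2 * a * c) (b - a) (2 * a + 2 * b - 4 * c)
      * D3 ((b - a) * c) (b - a) = C (2 * m₁ * m₃) ^ 2 * ((X - C a) * (X - C c)) := by
    unfold D2 D3
    simp only [map_sub, map_add, map_mul, map_ofNat]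
    linear_combination 4 * ((X - C a) * (X - C c)) * ((C c - C b) * C₁ + C m₁ ^ 2 * C₃)
  have e12 : D1 ((b - a) * c) (4 * a * b - 2 * b * c - 2 * a * c) (b - a) (2 * a + 2 * b - 4 * c)
      * D2 ((b - a) * c) (4 * a * b - 2 * b * c - 2 * a * c) (b - a) (2 * a + 2 * b - 4 * c) =
      C (4 * m₂ * m₃) ^ 2 * ((X - C a) * (X - C b)) := by
    unfold D1 D2
    simp only [map_sub, map_add, map_mul, map_ofNat]
    linear_combination 16 * ((X - C a) * (X - C b)) * ((C c - C b) * C₂ + C m₂ ^ 2 * C₃)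
  have hba : b - a ≠ 0 := sub_ne_zero.mpr hab.symm
  have hca : c - a ≠ 0 := sub_ne_zero.mpr hac.symm
  have hcb : c - b ≠ 0 := sub_ne_zero.mpr hbc.symm
  have hdet : ((b - a) * c) * (2 * a + 2 * b - 4 * c) -
      (4 * a * b - 2 * b * c - 2 * a * c) * (b - a) ≠ 0 := by
    have h0 : ((b - a) * c) * (2 * a + 2 * b - 4 * c) -
      (4 * a * b - 2 * b * c - 2 * a * c) * (b - a) = -4 * ((b - a) * ((c - a) * (c - b))) := by
      ring
    rw [h0]
    exact mul_ne_zero (by norm_num) (mul_ne_zero hba (mul_ne_zero hca hcb))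
  have n12 : 2 * m₁ * m₂ ≠ 0 := mul_ne_zero (mul_ne_zero two_ne_zero hm₁) hm₂
  have n13 : 2 * m₁ * m₃ ≠ 0 := mul_ne_zero (mul_ne_zero two_ne_zero hm₁) hm₃
  have n23 : 4 * m₂ * m₃ ≠ 0 := mul_ne_zero (mul_ne_zero (by norm_num) hm₂) hm₃
  have h := rel H hE hdet (by rw [e13]; exact rt_quad n12 hbc hb)
    (by rw [e23]; exact rt_quad n13 hac ha)
    (by rw [e12]; exact rt_quad n23 hab ha) (fib A B c) rfl
    (fib_finite A B hba)
  rw [e13, e23, e12, yy_scale n12, yy_scale n13, yy_scale n23] at h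
  exact h.1

/-- There is a fourfold configuration of good points above a given good point, with all
differences squares. -/
theorem exists_points {A B : ℤ[X]} (hE : 4 * A ^ 3 + 27 * B ^ 2 ≠ 0) (a : ℤ) :
    ∃ n : ℤ, n ≠ 0 ∧ ∀ m : ℤ, 1 ≤ m → Gd A B (a + m * n ^ 2) := by
  have hfin : {t : ℤ | (4 * A ^ 3 + 27 * B ^ 2).IsRoot t}.Finite :=
    Polynomial.finite_setOfPred_isRoot hE
  obtain ⟨R, hR⟩ := hfin.bddAbove
  refine ⟨|R| + |a| + 1, by positivity, ?_⟩
  intro m hm h0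
  have h1 : a + m * (|R| + |a| + 1) ^ 2 ≤ R := hR h0
  have h2 := le_abs_self R
  have h3 := neg_abs_le a
  have h4 : 0 ≤ |R| := abs_nonneg R
  have h5 : 0 ≤ |a| := abs_nonneg a
  have h6 : (|R| + |a| + 1) ≤ (|R| + |a| + 1) ^ 2 := by nlinarith
  have h7 : (|R| + |a| + 1) ^ 2 ≤ m * (|R| + |a| + 1) ^ 2 := by nlinarith [sq_nonneg (|R| + |a| + 1)]
  linarith

/-- The twist by a linear factor with good root. -/
theorem lemL {A B : ℤ[X]} (H : HP A B) (hE : NonSplit A B) {a : ℤ} (ha : Gd A B a) :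
    (3 : ℂ) • yy (X - C a) A B + qq (vec A B) = 0 := by
  obtain ⟨n, hn, hg⟩ := exists_points hE.1 a
  have g2 : Gd A B (a + 153 ^ 2 * n ^ 2) := hg _ (by norm_num)
  have g3 : Gd A B (a + 185 ^ 2 * n ^ 2) := hg _ (by norm_num)
  have g4 : Gd A B (a + 697 ^ 2 * n ^ 2) := hg _ (by norm_num)
  have q12 : (a + 153 ^ 2 * n ^ 2) - a = (153 * n) ^ 2 := by ring
  have q13 : (a + 185 ^ 2 * n ^ 2) - a = (185 * n) ^ 2 := by ring
  have q14 : (a + 697 ^ 2 * n ^ 2) - a = (697 * n) ^ 2 := by ring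
  have q23 : (a + 185 ^ 2 * n ^ 2) - (a + 153 ^ 2 * n ^ 2) = (104 * n) ^ 2 := by ring
  have q24 : (a + 697 ^ 2 * n ^ 2) - (a + 153 ^ 2 * n ^ 2) = (680 * n) ^ 2 := by ring
  have q34 : (a + 697 ^ 2 * n ^ 2) - (a + 185 ^ 2 * n ^ 2) = (672 * n) ^ 2 := by ring
  have n12 : 153 * n ≠ 0 := mul_ne_zero (by norm_num) hn
  have n13 : 185 * n ≠ 0 := mul_ne_zero (by norm_num) hn
  have n14 : 697 * n ≠ 0 := mul_ne_zero (by norm_num) hn
  have n23 : 104 * n ≠ 0 := mul_ne_zero (by norm_num) hn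
  have n24 : 680 * n ≠ 0 := mul_ne_zero (by norm_num) hn
  have n34 : 672 * n ≠ 0 := mul_ne_zero (by norm_num) hn
  generalize a + 153 ^ 2 * n ^ 2 = b at *
  generalize a + 185 ^ 2 * n ^ 2 = c at *
  generalize a + 697 ^ 2 * n ^ 2 = d at *
  have A12 := (relA H hE q12 n12 ha g2).1
  have A13 := (relA H hE q13 n13 ha g3).1
  have A14 := (relA H hE q14 n14 ha g4).1
  have A23 := (relA H hE q23 n23 g2 g3).1
  have A24 := (relA H hE q24 n24 g2 g4).1
  have A34 := (relA H hE q34 n34 g3 g4).1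
  have B13 := relB H hE q13 n13 ha g3
  have B14 := relB H hE q14 n14 ha g4
  have T123 := relC H hE q12 q13 q23 n12 n13 n23 ha g2
  have T124 := relC H hE q12 q14 q24 n12 n14 n24 ha g2
  have T134 := relC H hE q13 q14 q34 n13 n14 n34 ha g3
  have T234 := relC H hE q23 q24 q34 n23 n24 n34 g2 g3
  generalize qq (vec A B) = x at *
  generalize qq (fib A B c) = f3 at *
  generalize qq (fib A B d) = f4 at *
  generalize yy ((X - C a) * (X - C b)) A B = y12 at *
  generalize yy ((X - C a) * (X - C c)) A B = y13 at *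
  generalize yy ((X - C a) * (X - C d)) A B = y14 at *
  generalize yy ((X - C b) * (X - C c)) A B = y23 at *
  generalize yy ((X - C b) * (X - C d)) A B = y24 at *
  generalize yy ((X - C c) * (X - C d)) A B = y34 at *
  generalize yy (X - C a) A B = y1 at *
  generalize yy (X - C b) A B = y2 at *
  generalize yy (X - C c) A B = y3 at *
  generalize yy (X - C d) A B = y4 at *
  linear_combination (norm := module) (1 / 2 : ℂ) • (A12 + A13 + A23 - T123 + (B13 - A13))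
    + (1 / 2 : ℂ) • (A12 + A14 + A24 - T124 + (B14 - A14))
    + (1 / 2 : ℂ) • (A13 + A14 + A34 - T134 + (B14 - A14))
    - (A23 + A24 + A34 - T234 + (B14 - A14))

end MPa4e5f3
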