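import Pool.Agent.Lib.MP_a4e5f3_nt.Defs

/-!
# The space of pairs `(h, r)` with the analytic Nagao property
-/

namespace MPa4e5f3

open Polynomial

theorem dterm_add (h h' : Nat.Primes → ℂ) (s : ℂ) :
    dterm (h + h') s = fun p => dterm h s p + dterm h' s p := by
  funext p
  simp only [dterm, Pi.add_apply]
  ring

theorem dterm_smul (c : ℂ) (h : Nat.Primes → ℂ) (s : ℂ) :
    dterm (c • h) s = fun p => c * dterm h s p := by
  funext p
  simp only [dterm, Pi.smul_apply, smul_eq_mul]
  ring

theorem circleIntegrable_of_punctured {G : ℂ → ℂ} {ε ρ : ℝ} (h0 : 0 < ρ) (h1 : ρ < ε)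
    (hG : DifferentiableOn ℂ G (Metric.ball (1 : ℂ) ε \ {1})) : CircleIntegrable G 1 ρ := by
  apply ContinuousOn.circleIntegrable h0.le
  apply hG.continuousOn.mono
  intro z hz
  rw [Metric.mem_sphere] at hz
  refine ⟨?_, ?_⟩
  · rw [Metric.mem_ball, hz]; exact h1
  · rintro rfl
    rw [dist_self] at hz
    exact h0.ne hz

theorem HasNegResidue.add {h h' : Nat.Primes → ℂ} {r r' : ℂ} (H : HasNegResidue h r)
    (H' : HasNegResidue h' r') : HasNegResidue (h + h') (r + r') := by
  obtain ⟨hs, ε, hε, G, hm, hd, hG, hr⟩ := H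
  obtain ⟨hs', ε', hε', G', hm', hd', hG', hr'⟩ := H'
  refine ⟨?_, min ε ε', lt_min hε hε', G + G', hm.add hm', ?_, ?_, ?_⟩
  · intro s h1
    rw [dterm_add]
    exact (hs s h1).add (hs' s h1)
  · apply DifferentiableOn.add
    · apply hd.mono
      exact Set.sdiff_subset_sdiff_left (Metric.ball_subset_ball (min_le_left _ _))
    · apply hd'.mono
      exact Set.sdiff_subset_sdiff_left (Metric.ball_subset_ball (min_le_right _ _))
  · intro s h1 h2
    rw [Pi.add_apply, hG s (Metric.ball_subset_ball (min_le_left _ _) h1) h2,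
      hG' s (Metric.ball_subset_ball (min_le_right _ _) h1) h2, dterm_add,
      (hs s h2).tsum_add (hs' s h2)]
  · intro ρ h1 h2
    have h3 : ρ < ε := lt_of_lt_of_le h2 (min_le_left _ _)
    have h4 : ρ < ε' := lt_of_lt_of_le h2 (min_le_right _ _)
    rw [← hr ρ h1 h3, ← hr' ρ h1 h4]
    have h5 : (∮ z in C(1, ρ), (G + G') z) = (∮ z in C(1, ρ), G z) + ∮ z in C(1, ρ), G' z := by
      rw [← circleIntegral.integral_add (circleIntegrable_of_punctured h1 h3 hd)
        (circleIntegrable_of_punctured h1 h4 hd')]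
      rfl
    rw [h5]
    ring

theorem HasNegResidue.smul (c : ℂ) {h : Nat.Primes → ℂ} {r : ℂ} (H : HasNegResidue h r) :
    HasNegResidue (c • h) (c * r) := by
  obtain ⟨hs, ε, hε, G, hm, hd, hG, hr⟩ := H
  refine ⟨?_, ε, hε, fun z => c * G z, (MeromorphicAt.const c 1).mul hm, ?_, ?_, ?_⟩
  · intro s h1
    rw [dterm_smul]
    exact (hs s h1).mul_left c
  · exact hd.const_mul c
  · intro s h1 h2
    change c * G s = _
    rw [hG s h1 h2, dterm_smul, tsum_mul_left]
  · intro ρ h1 h2
    rw [← hr ρ h1 h2, circleIntegral.integral_const_mul]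
    ring

theorem HasNegResidue.of_finite {h : Nat.Primes → ℂ} (hf : (Function.support h).Finite) :
    HasNegResidue h 0 := by
  have h0 : ∀ s p, p ∉ hf.toFinset → dterm h s p = 0 := by
    intro s p hp
    have : h p = 0 := by
      by_contra h1
      exact hp (hf.mem_toFinset.mpr h1)
    rw [dterm, this]; simp
  have hdiff : Differentiable ℂ (fun s => ∑ p ∈ hf.toFinset, dterm h s p) := by
    apply Differentiable.fun_sum
    intro p _
    unfold dterm
    have hp : (((p : ℕ) : ℂ)) ≠ 0 := by exact_mod_cast p.2.ne_zero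
    apply Differentiable.div
    · exact differentiable_const _
    · intro s
      exact (differentiableAt_id.const_cpow (Or.inl hp))
    · intro s h1
      rw [Complex.cpow_eq_zero_iff] at h1
      exact hp h1.1
  refine ⟨?_, 1, one_pos, fun s => ∑ p ∈ hf.toFinset, dterm h s p, ?_, hdiff.differentiableOn, ?_, ?_⟩
  · intro s _
    exact summable_of_ne_finset_zero (s := hf.toFinset) (fun p hp => h0 s p hp)
  · exact (hdiff.analyticAt 1).meromorphicAt
  · intro s _ _
    rw [tsum_eq_sum (s := hf.toFinset) (fun p hp => h0 s p hp)]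
  · intro ρ h1 _
    have h2 : (∮ z in C(1, ρ), ∑ p ∈ hf.toFinset, dterm h z p) = 0 := by
      apply Complex.circleIntegral_eq_zero_of_differentiable_on_off_countable h1.le
        Set.countable_empty
      · exact hdiff.continuous.continuousOn
      · intro z _
        exact hdiff z
    rw [h2]
    simp

/-- The vector space of all pairs `(h, r)`. -/
abbrev VV : Type := (Nat.Primes → ℂ) × ℂ

/-- The pairs `(h, r)` with the analytic Nagao property. -/
def WW : Submodule ℂ VV where
  carrier := {v | HasNegResidue v.1 v.2}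
  add_mem' := fun ha hb => ha.add hb
  zero_mem' := by
    change HasNegResidue 0 0
    apply HasNegResidue.of_finite
    simp
  smul_mem' := by
    intro c v hv
    exact hv.smul c

theorem mem_WW {v : VV} : v ∈ WW ↔ HasNegResidue v.1 v.2 := Iff.rfl

theorem mem_WW_of_finite {v : VV} (h : {p | v.1 p ≠ 0}.Finite) (h2 : v.2 = 0) : v ∈ WW := by
  rw [mem_WW, h2]
  exact HasNegResidue.of_finite h

/-- The quotient of the space of all pairs by those with the analytic Nagao property. -/
noncomputable def qq : VV →ₗ[ℂ] VV ⧸ WW := WW.mkQ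

theorem qq_eq_zero {v : VV} : qq v = 0 ↔ HasNegResidue v.1 v.2 := by
  rw [qq, Submodule.mkQ_apply, Submodule.Quotient.mk_eq_zero]
  rfl

theorem qq_eq_of_finite {v w : VV} (h : {p | v.1 p ≠ w.1 p}.Finite) (h2 : v.2 = w.2) :
    qq v = qq w := by
  rw [← sub_eq_zero, ← map_sub, qq, Submodule.mkQ_apply, Submodule.Quotient.mk_eq_zero]
  apply mem_WW_of_finite
  · apply h.subset
    intro p hp
    simp only [Prod.fst_sub, Pi.sub_apply, Set.mem_ofPred_eq, ne_eq] at hp ⊢
    intro h3
    apply hp
    rw [h3, sub_self]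
  · rw [Prod.snd_sub, h2, sub_self]

end MPa4e5f3
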