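import Pool.Agent.Lib.MP_a4e5f3_nt.Steps

/-!
# Descending the property of being constant along quadratic substitutions
-/

namespace MPa4e5f3

open Polynomial

theorem poly_real {x y : ℚ[X]} {c : ℚ} (hc : 0 < c) (h : x ^ 2 + C c * y ^ 2 = 0) : y = 0 := by
  have h1 : ∀ t : ℚ, y.eval t = 0 := by
    intro t
    have h2 := congrArg (Polynomial.eval t) h
    simp only [eval_add, eval_pow, eval_mul, eval_C, eval_zero] at h2
    have h3 : 0 ≤ (x.eval t) ^ 2 := sq_nonneg _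
    have h4 : 0 ≤ (y.eval t) ^ 2 := sq_nonneg _
    have h5 : (y.eval t) ^ 2 = 0 := by
      by_contra h6
      have h7 : 0 < (y.eval t) ^ 2 := lt_of_le_of_ne h4 (Ne.symm h6)
      have := mul_pos hc h7
      linarith
    exact pow_eq_zero_iff (two_ne_zero) |>.mp h5
  exact Polynomial.funext (by simpa using h1)

theorem real_lemma {x y : QX} {c : ℚ} (hc : 0 < c) (h : x ^ 2 + RatFunc.C c * y ^ 2 = 0) :
    y = 0 := by
  have hx : x = algebraMap ℚ[X] QX x.num / algebraMap ℚ[X] QX x.denom := (RatFunc.num_div_denom x).symm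
  have hy : y = algebraMap ℚ[X] QX y.num / algebraMap ℚ[X] QX y.denom := (RatFunc.num_div_denom y).symm
  have dx : algebraMap ℚ[X] QX x.denom ≠ 0 := by
    rw [Ne, FaithfulSMul.algebraMap_eq_zero_iff]; exact RatFunc.denom_ne_zero x
  have dy : algebraMap ℚ[X] QX y.denom ≠ 0 := by
    rw [Ne, FaithfulSMul.algebraMap_eq_zero_iff]; exact RatFunc.denom_ne_zero y
  have h1 : (x.num * y.denom) ^ 2 + C c * (y.num * x.denom) ^ 2 = 0 := by
    apply RatFunc.algebraMap_injective ℚ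
    rw [map_zero, map_add, map_pow, map_mul, map_mul, map_pow, map_mul, RatFunc.algebraMap_C]
    have h2 : (x ^ 2 + RatFunc.C c * y ^ 2) * (algebraMap ℚ[X] QX x.denom * algebraMap ℚ[X] QX y.denom) ^ 2 = 0 := by
      rw [h, zero_mul]
    rw [← h2]
    have hx' : algebraMap ℚ[X] QX x.num = x * algebraMap ℚ[X] QX x.denom := by
      rw [eq_comm, ← eq_div_iff dx]; exact hx
    have hy' : algebraMap ℚ[X] QX y.num = y * algebraMap ℚ[X] QX y.denom := by
      rw [eq_comm, ← eq_div_iff dy]; exact hy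
    rw [hx', hy']
    ring
  have h2 := poly_real hc h1
  rcases mul_eq_zero.mp h2 with h3 | h3
  · exact (RatFunc.num_eq_zero_iff).mp h3
  · exact absurd h3 (RatFunc.denom_ne_zero x)

theorem eq_or_neg {v v' : QX} (hv : v ≠ 0) (h : v' ^ 4 = v ^ 4 ∨ v' ^ 6 = v ^ 6) :
    v' = v ∨ v' = -v := by
  have h1 : v' ^ 2 - v ^ 2 = 0 := by
    rcases h with h | h
    · have h2 : (v' ^ 2 - v ^ 2) * (v' ^ 2 + v ^ 2) = 0 := by linear_combination h
      rcases mul_eq_zero.mp h2 with h3 | h3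
      · exact h3
      · exfalso
        apply hv
        refine real_lemma (x := v') (c := 1) one_pos ?_
        rw [map_one]
        linear_combination h3
    · have h2 : (v' ^ 2 - v ^ 2) * (v' ^ 4 + v' ^ 2 * v ^ 2 + v ^ 4) = 0 := by linear_combination h
      rcases mul_eq_zero.mp h2 with h3 | h3
      · exact h3
      · exfalso
        have h4 : v ^ 2 = 0 := by
          refine real_lemma (x := 2 * v' ^ 2 + v ^ 2) (c := 3) (by norm_num) ?_
          rw [map_ofNat]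
          linear_combination 4 * h3
        exact hv (pow_eq_zero_iff two_ne_zero |>.mp h4)
  have h2 : (v' - v) * (v' + v) = 0 := by linear_combination h1
  rcases mul_eq_zero.mp h2 with h3 | h3
  · left; linear_combination h3
  · right; linear_combination h3

theorem ns_step (ι σ : QX →+* QX) {δ : QX} {D : QX} (hδ : δ ≠ 0)
    (hD : ι D = δ ^ 2) (hι : σ (ι xx) = ι xx) (hσδ : σ δ = -δ)
    (hX : ∃ u v, xx = ι u + ι v * δ) {a b v : QX} (hv : v ≠ 0) {α β : ℚ}
    (ha : ι a = v ^ 4 * RatFunc.C α) (hb : ι b = v ^ 6 * RatFunc.C β) (hne : α ≠ 0 ∨ β ≠ 0) :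
    ∃ w : QX, w ≠ 0 ∧ ((a = w ^ 4 * RatFunc.C α ∧ b = w ^ 6 * RatFunc.C β) ∨
      (a = D ^ 2 * (w ^ 4 * RatFunc.C α) ∧ b = D ^ 3 * (w ^ 6 * RatFunc.C β))) := by
  have h1 : ∀ x, σ (ι x) = ι x := by
    have : σ.comp ι = ι := hom_ext hι
    intro x
    exact congrArg (fun f => f x) this
  have hCσ : ∀ c : ℚ, σ (RatFunc.C c) = RatFunc.C c := by
    intro c
    have : σ.comp (RatFunc.C : ℚ →+* QX) = RatFunc.C := Subsingleton.elim _ _
    exact congrArg (fun f => f c) this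
  have hCι : ∀ c : ℚ, ι (RatFunc.C c) = RatFunc.C c := by
    intro c
    have : ι.comp (RatFunc.C : ℚ →+* QX) = RatFunc.C := Subsingleton.elim _ _
    exact congrArg (fun f => f c) this
  have h2 : (σ v) ^ 4 = v ^ 4 ∨ (σ v) ^ 6 = v ^ 6 := by
    rcases hne with h | h
    · left
      have h3 := congrArg σ ha
      rw [h1, map_mul, map_pow, hCσ, ha] at h3
      have h4 : (RatFunc.C α : QX) ≠ 0 := (_root_.map_ne_zero _).mpr h
      exact (mul_right_cancel₀ h4 h3).symm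
    · right
      have h3 := congrArg σ hb
      rw [h1, map_mul, map_pow, hCσ, hb] at h3
      have h4 : (RatFunc.C β : QX) ≠ 0 := (_root_.map_ne_zero _).mpr h
      exact (mul_right_cancel₀ h4 h3).symm
  rcases eq_or_neg hv h2 with h3 | h3
  · obtain ⟨w, hw⟩ := fix_of_gen hD h1 hσδ hX v h3
    refine ⟨w, ?_, Or.inl ⟨?_, ?_⟩⟩
    · rintro rfl
      apply hv
      rw [← hw, map_zero]
    · apply ι.injective
      rw [ha, map_mul, map_pow, hw, hCι]
    · apply ι.injective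
      rw [hb, map_mul, map_pow, hw, hCι]
  · obtain ⟨w, hw⟩ := fix_of_gen hD h1 hσδ hX (v / δ) (by rw [map_div₀, h3, hσδ, neg_div_neg_eq])
    have hw' : v = ι w * δ := by rw [hw]; field_simp
    refine ⟨w, ?_, Or.inr ⟨?_, ?_⟩⟩
    · rintro rfl
      apply hv
      rw [hw', map_zero, zero_mul]
    · apply ι.injective
      rw [ha, map_mul, map_mul, map_pow, map_pow, hCι, hD, hw']
      ring
    · apply ι.injective
      rw [hb, map_mul, map_mul, map_pow, map_pow, hCι, hD, hw']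
      ring

theorem ns_sq {a b v : QX} (hv : v ≠ 0) {α β : ℚ}
    (ha : sub _ NC_sq a = v ^ 4 * RatFunc.C α) (hb : sub _ NC_sq b = v ^ 6 * RatFunc.C β)
    (hne : α ≠ 0 ∨ β ≠ 0) :
    ∃ w : QX, w ≠ 0 ∧ ((a = w ^ 4 * RatFunc.C α ∧ b = w ^ 6 * RatFunc.C β) ∨
      (a = xx ^ 2 * (w ^ 4 * RatFunc.C α) ∧ b = xx ^ 3 * (w ^ 6 * RatFunc.C β))) := by
  refine ns_step (sub _ NC_sq) (sub _ NC_neg) (δ := xx) X_ne_zero (sub_X _ _) ?_ ?_ ?_ hv ha hb hne
  · rw [sub_X, map_pow, sub_X]; ring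
  · rw [sub_X]
  · exact ⟨0, 1, by simp⟩

theorem ns_qd {a b v : QX} (hv : v ≠ 0) {α β : ℚ}
    (ha : sub _ NC_qd a = v ^ 4 * RatFunc.C α) (hb : sub _ NC_qd b = v ^ 6 * RatFunc.C β)
    (hne : α ≠ 0 ∨ β ≠ 0) :
    ∃ w : QX, w ≠ 0 ∧ ((a = w ^ 4 * RatFunc.C α ∧ b = w ^ 6 * RatFunc.C β) ∨
      (a = (xx + 2) ^ 2 * (w ^ 4 * RatFunc.C α) ∧ b = (xx + 2) ^ 3 * (w ^ 6 * RatFunc.C β))) := by
  refine ns_step (sub _ NC_qd) (sub _ NC_neg) (δ := xx) X_ne_zero ?_ ?_ ?_ ?_ hv ha hb hne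
  · rw [map_add, sub_X, map_ofNat]; ring
  · rw [sub_X, map_sub, map_pow, sub_X, map_ofNat]; ring
  · rw [sub_X]
  · exact ⟨0, 1, by simp⟩

theorem ns_eta {a b v : QX} (hv : v ≠ 0) {α β : ℚ}
    (ha : sub _ NC_eta a = v ^ 4 * RatFunc.C α) (hb : sub _ NC_eta b = v ^ 6 * RatFunc.C β)
    (hne : α ≠ 0 ∨ β ≠ 0) :
    ∃ w : QX, w ≠ 0 ∧ ((a = w ^ 4 * RatFunc.C α ∧ b = w ^ 6 * RatFunc.C β) ∨
      (a = (xx ^ 2 - 4) ^ 2 * (w ^ 4 * RatFunc.C α) ∧
        b = (xx ^ 2 - 4) ^ 3 * (w ^ 6 * RatFunc.C β))) := by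
  have hx := X_ne_zero
  refine ns_step (sub _ NC_eta) (sub _ NC_inv) (δ := xx - 1 / xx) eta_ne ?_ ?_ ?_ ?_ hv ha hb hne
  · rw [map_sub, map_pow, sub_X, map_ofNat]
    field_simp
    ring
  · rw [sub_X, map_add, map_div₀, map_one, sub_X]
    field_simp
    ring
  · rw [map_sub, map_div₀, map_one, sub_X]
    field_simp
    ring
  · refine ⟨xx / 2, 1 / 2, ?_⟩
    rw [map_div₀, map_div₀, sub_X, map_ofNat, map_one]
    field_simp
    ring

/-- `(a, b)` is the twist by `D` of a constant pair, with constants `α`, `β`. -/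
def TwC (D : QX) (α β : ℚ) (a b : QX) : Prop :=
  ∃ w : QX, w ≠ 0 ∧ a = D ^ 2 * (w ^ 4 * RatFunc.C α) ∧ b = D ^ 3 * (w ^ 6 * RatFunc.C β)

theorem TwC_scale {D g : QX} (hg : g ≠ 0) {α β : ℚ} {a b : QX} (h : TwC (D / g ^ 2) α β a b) :
    TwC D α β a b := by
  obtain ⟨w, hw, ha, hb⟩ := h
  refine ⟨w / g, div_ne_zero hw hg, ?_, ?_⟩
  · rw [ha]; field_simp
  · rw [hb]; field_simp

theorem ns_psi {α' β' γ δ : ℤ} (h : α' * δ - β' * γ ≠ 0) {a b v : QX} (hv : v ≠ 0) {α β : ℚ}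
    (ha : sub _ NC_sq (sub _ NC_eta (sub _ (NC_mob h) a)) = v ^ 4 * RatFunc.C α)
    (hb : sub _ NC_sq (sub _ NC_eta (sub _ (NC_mob h) b)) = v ^ 6 * RatFunc.C β)
    (hne : α ≠ 0 ∨ β ≠ 0) :
    TwC 1 α β a b
      ∨ TwC (((δ - 2 * γ) * xx - β' + 2 * α') * (α' - γ * xx)) α β a b
      ∨ TwC (((δ + 2 * γ) * xx - β' - 2 * α') * (α' - γ * xx)) α β a b
      ∨ TwC (((δ - 2 * γ) * xx - β' + 2 * α') * ((δ + 2 * γ) * xx - β' - 2 * α')) α β a b := by
  have hx := X_ne_zero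
  have h' : δ * α' - -β' * -γ ≠ 0 := by
    intro h0; apply h; linear_combination h0
  have hac : γ ≠ 0 ∨ α' ≠ 0 := by
    by_contra h2
    push Not at h2
    apply h
    rw [h2.1, h2.2]; ring
  have h3 : ((α' : QX) - γ * xx) ≠ 0 := by
    have := lin_ne (γ := -γ) (δ := α') (by simpa using hac)
    intro h0
    apply this
    push_cast
    linear_combination h0
  have hx1 : xx + 1 ≠ 0 := by
    have := lin_ne (γ := 1) (δ := 1) (by simp)
    simpa using this
  have hx2 : xx + 2 ≠ 0 := by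
    have := lin_ne (γ := 1) (δ := 2) (by simp)
    simpa using this
  set M := sub _ (NC_mob h) with hM
  have hCM : ∀ c : ℚ, M (RatFunc.C c) = RatFunc.C c := fun c => sub_C _ _ c
  have hinv : M (mob δ (-β') (-γ) α') = xx := mob_inv h h'
  have hmob : mob δ (-β') (-γ) α' = ((δ : QX) * xx - β') / ((α' : QX) - γ * xx) := by
    unfold mob
    push_cast
    congr 1 <;> ring
  have key : ∀ (W V w : QX), w ≠ 0 → M W = V →
      M a = V ^ 2 * (w ^ 4 * RatFunc.C α) → M b = V ^ 3 * (w ^ 6 * RatFunc.C β) →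
      TwC W α β a b := by
    intro W V w hw hW h4 h5
    obtain ⟨w', hw'⟩ := mob_surj h w
    refine ⟨w', ?_, ?_, ?_⟩
    · rintro rfl
      apply hw
      rw [← hw', map_zero]
    · apply M.injective
      rw [h4, map_mul, map_mul, map_pow, map_pow, hW, hCM, ← hw']
    · apply M.injective
      rw [h5, map_mul, map_mul, map_pow, map_pow, hW, hCM, ← hw']
  obtain ⟨w1, hw1, h4 | h4⟩ := ns_sq hv ha hb hne
  · obtain ⟨w2, hw2, h5 | h5⟩ := ns_eta hw1 h4.1 h4.2 hne
    · left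
      refine key 1 1 w2 hw2 (map_one _) ?_ ?_
      · rw [h5.1]; ring
      · rw [h5.2]; ring
    · right; right; right
      have := key (mob δ (-β') (-γ) α' ^ 2 - 4) (xx ^ 2 - 4) w2 hw2
        (by rw [map_sub, map_pow, hinv, map_ofNat]) h5.1 h5.2
      refine TwC_scale h3 ?_
      convert this using 1
      rw [hmob]
      field_simp
      ring
  · have e1 : sub _ NC_eta (M a / (xx + 2) ^ 2) = (w1 * (xx / (xx + 1))) ^ 4 * RatFunc.C α := by
      rw [map_div₀, h4.1, map_pow, map_add, sub_X, map_ofNat]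
      have : xx + 1 / xx + 2 = (xx + 1) ^ 2 / xx := by field_simp; ring
      rw [this]
      field_simp
    have e2 : sub _ NC_eta (M b / (xx + 2) ^ 3) = (w1 * (xx / (xx + 1))) ^ 6 * RatFunc.C β := by
      rw [map_div₀, h4.2, map_pow, map_add, sub_X, map_ofNat]
      have : xx + 1 / xx + 2 = (xx + 1) ^ 2 / xx := by field_simp; ring
      rw [this]
      field_simp
    obtain ⟨w2, hw2, h5 | h5⟩ := ns_eta (mul_ne_zero hw1 (div_ne_zero hx hx1)) e1 e2 hne
    · right; left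
      have := key (mob δ (-β') (-γ) α' + 2) (xx + 2) w2 hw2
        (by rw [map_add, hinv, map_ofNat])
        (by rw [← h5.1]; field_simp) (by rw [← h5.2]; field_simp)
      refine TwC_scale h3 ?_
      convert this using 1
      rw [hmob]
      field_simp
      ring
    · right; right; left
      have g1 : M a = (xx ^ 2 - 4) ^ 2 * (w2 ^ 4 * RatFunc.C α) * (xx + 2) ^ 2 := by
        rw [← h5.1]; field_simp
      have g2 : M b = (xx ^ 2 - 4) ^ 3 * (w2 ^ 6 * RatFunc.C β) * (xx + 2) ^ 3 := by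
        rw [← h5.2]; field_simp
      have := key (mob δ (-β') (-γ) α' - 2) (xx - 2) (w2 * (xx + 2)) (mul_ne_zero hw2 hx2)
        (by rw [map_sub, hinv, map_ofNat])
        (by rw [g1]; ring) (by rw [g2]; ring)
      refine TwC_scale h3 ?_
      convert this using 1
      rw [hmob]
      field_simp
      ring

theorem rm_pow {p : ℚ[X]} (hp : p ≠ 0) (c : ℚ) (n : ℕ) :
    rootMultiplicity c (p ^ n) = n * rootMultiplicity c p := by
  induction n with
  | zero => rw [pow_zero, zero_mul, ← C_1, rootMultiplicity_C]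
  | succ n ih =>
    rw [pow_succ, rootMultiplicity_mul (mul_ne_zero (pow_ne_zero _ hp) hp), ih]
    ring

/-- A twist by a polynomial with a simple root at a point of good reduction is not constant. -/
theorem TwC_false {A B : ℚ[X]} {α β : ℚ} {D : ℚ[X]} {c : ℚ}
    (hΔ : (4 * A ^ 3 + 27 * B ^ 2).eval c ≠ 0) {D' : ℚ[X]} (hD : D = (X - C c) * D')
    (hD' : D'.eval c ≠ 0)
    (h : TwC (algebraMap ℚ[X] QX D) α β (algebraMap ℚ[X] QX A) (algebraMap ℚ[X] QX B)) :
    False := by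
  obtain ⟨w, hw, ha, hb⟩ := h
  have hwd : algebraMap ℚ[X] QX w.denom ≠ 0 := by
    rw [Ne, FaithfulSMul.algebraMap_eq_zero_iff]; exact RatFunc.denom_ne_zero w
  have hw' : algebraMap ℚ[X] QX w.num = w * algebraMap ℚ[X] QX w.denom := by
    rw [eq_comm, ← eq_div_iff hwd]; exact (RatFunc.num_div_denom w).symm
  have h1 : (4 * A ^ 3 + 27 * B ^ 2) * w.denom ^ 12 =
      D ^ 6 * w.num ^ 12 * C (4 * α ^ 3 + 27 * β ^ 2) := by
    apply RatFunc.algebraMap_injective ℚ
    simp only [map_mul, map_pow, map_add, map_ofNat, RatFunc.algebraMap_C]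
    rw [ha, hb, hw']
    ring
  have hP : (4 * A ^ 3 + 27 * B ^ 2) ≠ 0 := by
    intro h0; rw [h0, eval_zero] at hΔ; exact hΔ rfl
  have hL : (4 * A ^ 3 + 27 * B ^ 2) * w.denom ^ 12 ≠ 0 :=
    mul_ne_zero hP (pow_ne_zero _ (RatFunc.denom_ne_zero w))
  have hR := h1 ▸ hL
  have hD0 : D' ≠ 0 := by
    intro h0; rw [h0, eval_zero] at hD'; exact hD' rfl
  have hDn : D ≠ 0 := by rw [hD]; exact mul_ne_zero (X_sub_C_ne_zero c) hD0
  have hwn : w.num ≠ 0 := by
    intro h0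
    exact hw (RatFunc.num_eq_zero_iff.mp h0)
  have h2 := congrArg (rootMultiplicity c) h1
  rw [rootMultiplicity_mul hL, rootMultiplicity_mul hR,
    rootMultiplicity_mul (left_ne_zero_of_mul hR), rootMultiplicity_C, rm_pow hDn,
    rm_pow hwn, rm_pow (RatFunc.denom_ne_zero w), hD,
    rootMultiplicity_mul (mul_ne_zero (X_sub_C_ne_zero c) hD0), rootMultiplicity_X_sub_C_self,
    rootMultiplicity_eq_zero hΔ, rootMultiplicity_eq_zero hD'] at h2
  omega

end MPa4e5f3
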