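import Mathlib

/-!
# Maps between the point groups of short Weierstrass curves

A field homomorphism `φ : K →+* L` and a scaling factor `u ∈ Lˣ` with `φ a = u⁴ a'`, `φ b = u⁶ b'`
induce an injective homomorphism `(x, y) ↦ (φ x / u², φ y / u³)` of point groups.
-/

namespace MPa4e5f3

open WeierstrassCurve WeierstrassCurve.Affine

/-- The Weierstrass curve `y² = x³ + a x + b`. -/
abbrev sw {K : Type*} [Field K] (a b : K) : WeierstrassCurve.Affine K := ⟨0, 0, 0, a, b⟩

section

variable {K L : Type*} [Field K] [Field L]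

theorem sw_nonsingular {a b x y : K} : (sw a b).Nonsingular x y ↔
    y ^ 2 = x ^ 3 + a * x + b ∧ (3 * x ^ 2 + a ≠ 0 ∨ 2 * y ≠ 0) := by
  rw [nonsingular_iff', equation_iff]
  simp only [zero_mul, add_zero, mul_zero, zero_sub, neg_ne_zero]

theorem sw_negY (a b x y : K) : (sw a b).negY x y = -y := by
  simp [negY]

variable {a b : K} {a' b' : L} (φ : K →+* L) {u : L} (hu : u ≠ 0)
  (ha : φ a = u ^ 4 * a') (hb : φ b = u ^ 6 * b')

include hu ha hb

theorem nonsingular_map {x y : K} (h : (sw a b).Nonsingular x y) :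
    (sw a' b').Nonsingular (φ x / u ^ 2) (φ y / u ^ 3) := by
  rw [sw_nonsingular] at h ⊢
  obtain ⟨h1, h2⟩ := h
  have h3 := congrArg φ h1
  simp only [map_pow, map_add, map_mul] at h3
  refine ⟨?_, ?_⟩
  · field_simp
    rw [h3, ha, hb]
    ring
  · rcases h2 with h2 | h2
    · left
      have h4 : φ (3 * x ^ 2 + a) ≠ 0 := (map_ne_zero φ).mpr h2
      have h5 : 3 * (φ x / u ^ 2) ^ 2 + a' = φ (3 * x ^ 2 + a) / u ^ 4 := by
        simp only [map_pow, map_add, map_mul, map_ofNat]
        rw [ha]
        field_simp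
      rw [h5]
      exact div_ne_zero h4 (pow_ne_zero _ hu)
    · right
      have h4 : φ (2 * y) ≠ 0 := (map_ne_zero φ).mpr h2
      have h5 : 2 * (φ y / u ^ 3) = φ (2 * y) / u ^ 3 := by
        simp only [map_mul, map_ofNat]
        ring
      rw [h5]
      exact div_ne_zero h4 (pow_ne_zero _ hu)

theorem slope_map [DecidableEq K] [DecidableEq L] (x₁ x₂ y₁ y₂ : K) :
    (sw a' b').slope (φ x₁ / u ^ 2) (φ x₂ / u ^ 2) (φ y₁ / u ^ 3) (φ y₂ / u ^ 3) =
      φ ((sw a b).slope x₁ x₂ y₁ y₂) / u := by
  by_cases hx : x₁ = x₂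
  · subst hx
    by_cases hy : y₁ = (sw a b).negY x₁ y₂
    · rw [slope_of_Y_eq rfl hy, slope_of_Y_eq rfl]
      · simp
      · rw [hy, sw_negY, sw_negY, map_neg, neg_div]
    · rw [slope_of_Y_ne rfl hy, slope_of_Y_ne rfl]
      · simp only [sw_negY, mul_zero, zero_mul, add_zero, sub_zero, sub_neg_eq_add]
        simp only [map_div₀, map_add, map_mul, map_pow, map_ofNat]
        rw [ha]
        have h0 : φ y₁ + φ y₁ ≠ 0 ∨ φ y₁ + φ y₁ = 0 := ne_or_eq _ _
        rcases h0 with h0 | h0
        · have h1 : φ y₁ / u ^ 3 + φ y₁ / u ^ 3 = (φ y₁ + φ y₁) / u ^ 3 := by ring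
          rw [h1]
          field_simp
        · have h1 : φ y₁ / u ^ 3 + φ y₁ / u ^ 3 = (φ y₁ + φ y₁) / u ^ 3 := by ring
          rw [h1, h0]
          simp
      · intro h
        apply hy
        rw [sw_negY] at h ⊢
        have h2 : φ y₁ = φ (-y₂) := by
          rw [map_neg]
          field_simp at h
          exact h
        exact φ.injective h2
  · have hx' : φ x₁ / u ^ 2 ≠ φ x₂ / u ^ 2 := by
      intro h
      apply hx
      apply φ.injective
      field_simp at h
      exact h
    rw [slope_of_X_ne hx, slope_of_X_ne hx']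
    have h1 : φ x₁ - φ x₂ ≠ 0 := sub_ne_zero.mpr fun h => hx (φ.injective h)
    simp only [map_div₀, map_sub]
    have h2 : φ x₁ / u ^ 2 - φ x₂ / u ^ 2 = (φ x₁ - φ x₂) / u ^ 2 := by ring
    have h3 : φ y₁ / u ^ 3 - φ y₂ / u ^ 3 = (φ y₁ - φ y₂) / u ^ 3 := by ring
    rw [h2, h3]
    field_simp

/-- The homomorphism `(x, y) ↦ (φ x / u², φ y / u³)` of point groups. -/
noncomputable def pm [DecidableEq K] [DecidableEq L] : (sw a b).Point →+ (sw a' b').Point where
  toFun P := match P with
    | 0 => 0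
    | .some _ _ h => .some _ _ (nonsingular_map φ hu ha hb h)
  map_zero' := rfl
  map_add' := by
    rintro (_ | ⟨x₁, y₁, h₁⟩) (_ | ⟨x₂, y₂, h₂⟩)
    any_goals rfl
    by_cases hxy : x₁ = x₂ ∧ y₁ = (sw a b).negY x₂ y₂
    · rw [Point.add_of_Y_eq hxy.left hxy.right,
        Point.add_of_Y_eq (congrArg (fun x => φ x / u ^ 2) hxy.left)]
      rw [hxy.right, sw_negY, sw_negY, map_neg, neg_div]
    · have hxy' : ¬ (φ x₁ / u ^ 2 = φ x₂ / u ^ 2 ∧
          φ y₁ / u ^ 3 = (sw a' b').negY (φ x₂ / u ^ 2) (φ y₂ / u ^ 3)) := by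
        rintro ⟨h3, h4⟩
        apply hxy
        rw [sw_negY] at h4 ⊢
        constructor
        · apply φ.injective
          field_simp at h3
          exact h3
        · apply φ.injective
          rw [map_neg]
          field_simp at h4
          exact h4
      rw [Point.add_some hxy, Point.add_some hxy']
      simp only [Point.some.injEq]
      constructor
      · rw [slope_map φ hu ha hb]
        simp only [addX, zero_mul, add_zero, sub_zero, map_sub, map_pow]
        field_simp
      · rw [slope_map φ hu ha hb]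
        simp only [addY, negAddY, addX, sw_negY, zero_mul, add_zero, sub_zero, map_sub, map_pow,
          map_neg, map_add, map_mul]
        field_simp

theorem pm_zero [DecidableEq K] [DecidableEq L] : pm φ hu ha hb 0 = 0 := rfl

theorem pm_some [DecidableEq K] [DecidableEq L] {x y : K} (h : (sw a b).Nonsingular x y) :
    pm φ hu ha hb (.some _ _ h) = .some _ _ (nonsingular_map φ hu ha hb h) := rfl

theorem pm_injective [DecidableEq K] [DecidableEq L] : Function.Injective (pm φ hu ha hb) := by
  rintro (_ | ⟨x₁, y₁, h₁⟩) (_ | ⟨x₂, y₂, h₂⟩) h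
  any_goals contradiction
  · rfl
  · have h' : Point.some _ _ (nonsingular_map φ hu ha hb h₁) =
      Point.some _ _ (nonsingular_map φ hu ha hb h₂) := h
    rw [Point.some.injEq] at h' ⊢
    obtain ⟨h3, h4⟩ := h'
    constructor
    · apply φ.injective
      field_simp at h3
      exact h3
    · apply φ.injective
      field_simp at h4
      exact h4

end

end MPa4e5f3
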