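import Pool.Agent.Lib.MP_a4e5f3_nt.Defs
import Pool.Agent.Lib.MP_a4e5f3_nt.NS

/-!
# Homogeneous substitution in integral polynomials
-/

namespace MPa4e5f3

open Polynomial Finset

/-- `M^m A(N/M)`. -/
noncomputable def hg (m : ℕ) (A N M : ℤ[X]) : ℤ[X] :=
  ∑ i ∈ range (m + 1), C (A.coeff i) * N ^ i * M ^ (m - i)

theorem hg_map {R : Type*} [CommRing R] (Φ : ℤ[X] →+* R) (m : ℕ) (A N M : ℤ[X]) :
    Φ (hg m A N M) = ∑ i ∈ range (m + 1), (A.coeff i : R) * Φ N ^ i * Φ M ^ (m - i) := by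
  rw [hg, map_sum]
  apply sum_congr rfl
  intro i _
  rw [map_mul, map_mul, map_pow, map_pow]
  congr 2
  have : Φ.comp C = Int.castRingHom R := Subsingleton.elim _ _
  exact congrArg (fun f => f (A.coeff i)) this

theorem hg_div {K : Type*} [Field K] (Φ : ℤ[X] →+* K) {m : ℕ} {A : ℤ[X]} (N M : ℤ[X])
    (hA : A.natDegree ≤ m) (hM : Φ M ≠ 0) :
    Φ (hg m A N M) = Φ M ^ m * A.eval₂ (Int.castRingHom K) (Φ N / Φ M) := by
  rw [hg_map, eval₂_eq_sum_range' _ (Nat.lt_succ_of_le hA), mul_sum]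
  apply sum_congr rfl
  intro i hi
  have hi' : i ≤ m := Nat.lt_succ_iff.mp (mem_range.mp hi)
  have h1 : Φ M ^ m = Φ M ^ (m - i) * Φ M ^ i := by rw [← pow_add, Nat.sub_add_cancel hi']
  rw [h1, eq_intCast, div_pow]
  field_simp

theorem hg_zero {K : Type*} [Field K] (Φ : ℤ[X] →+* K) {m : ℕ} {A : ℤ[X]} (N M : ℤ[X])
    (hA : A.natDegree < m) (hM : Φ M = 0) : Φ (hg m A N M) = 0 := by
  rw [hg_map]
  apply sum_eq_zero
  intro i hi
  have hi' : i ≤ m := Nat.lt_succ_iff.mp (mem_range.mp hi)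
  rcases eq_or_lt_of_le hi' with h | h
  · rw [h, coeff_eq_zero_of_natDegree_lt hA]; simp
  · rw [hM, zero_pow (by omega), mul_zero]

/-- Reciprocity with respect to `m`. -/
def Pal (m : ℕ) (P : ℤ[X]) : Prop := P.natDegree ≤ m ∧ P.reflect m = P

theorem Pal.mul {m n : ℕ} {P Q : ℤ[X]} (hP : Pal m P) (hQ : Pal n Q) : Pal (m + n) (P * Q) := by
  refine ⟨(natDegree_mul_le).trans (add_le_add hP.1 hQ.1), ?_⟩
  rw [reflect_mul P Q hP.1 hQ.1, hP.2, hQ.2]

theorem Pal.pow {m : ℕ} {P : ℤ[X]} (hP : Pal m P) (n : ℕ) : Pal (m * n) (P ^ n) := by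
  induction n with
  | zero =>
    rw [mul_zero, pow_zero]
    refine ⟨by simp, ?_⟩
    rw [← C_1, reflect_C]; simp
  | succ n ih =>
    rw [pow_succ, mul_add, mul_one]
    exact ih.mul hP

theorem Pal.C_mul {m : ℕ} {P : ℤ[X]} (hP : Pal m P) (c : ℤ) : Pal m (C c * P) := by
  refine ⟨(natDegree_C_mul_le _ _).trans hP.1, ?_⟩
  rw [reflect_C_mul, hP.2]

theorem Pal.add {m : ℕ} {P Q : ℤ[X]} (hP : Pal m P) (hQ : Pal m Q) : Pal m (P + Q) := by
  refine ⟨(natDegree_add_le _ _).trans (max_le hP.1 hQ.1), ?_⟩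
  rw [reflect_add, hP.2, hQ.2]

theorem Pal.sum {m : ℕ} {ι : Type*} (s : Finset ι) (f : ι → ℤ[X]) (h : ∀ i ∈ s, Pal m (f i)) :
    Pal m (∑ i ∈ s, f i) := by
  classical
  induction s using Finset.induction_on with
  | empty => rw [sum_empty]; exact ⟨by simp, by simp⟩
  | insert a s ha ih =>
    rw [sum_insert ha]
    exact (h a (mem_insert_self _ _)).add (ih (fun i hi => h i (mem_insert_of_mem hi)))

theorem pal_coeff {m : ℕ} {P : ℤ[X]} (h : Pal m P) : ∀ i ≤ m, P.coeff (m - i) = P.coeff i := by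
  intro i hi
  have h1 := congrArg (fun Q => coeff Q i) h.2
  simp only [coeff_reflect, revAt_le hi] at h1
  exact h1

/-- `α (X⁴ + 1) + β X²`. -/
noncomputable def kl (α β : ℤ) : ℤ[X] := C α * (X ^ 4 + 1) + C β * X ^ 2

theorem kl_pal (α β : ℤ) : Pal 4 (kl α β) := by
  have h4 : Pal 4 (X ^ 4 + 1 : ℤ[X]) := by
    refine ⟨by compute_degree, ?_⟩
    ext i
    rw [coeff_reflect]
    by_cases hi : i ≤ 4
    · rw [revAt_le hi]
      interval_cases i <;> simp [coeff_one, coeff_X_pow]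
    · rw [revAt_eq_self_of_lt (by omega)]
  have h2 : Pal 4 (X ^ 2 : ℤ[X]) := by
    refine ⟨by rw [natDegree_X_pow]; omega, ?_⟩
    ext i
    rw [coeff_reflect]
    by_cases hi : i ≤ 4
    · rw [revAt_le hi]
      interval_cases i <;> simp [coeff_X_pow]
    · rw [revAt_eq_self_of_lt (by omega)]
  exact (h4.C_mul α).add (h2.C_mul β)

theorem kl_even (α β : ℤ) : (kl α β).comp (-X) = kl α β := by
  unfold kl
  simp only [add_comp, mul_comp, C_comp, pow_comp, X_comp, one_comp]
  ring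

theorem hg_kl (k m : ℕ) (hm : m = k) (A : ℤ[X]) (α β γ δ : ℤ) :
    EvenReciprocal (4 * k) (hg m A (kl α β) (kl γ δ)) := by
  subst hm
  have h1 : Pal (4 * m) (hg m A (kl α β) (kl γ δ)) := by
    apply Pal.sum
    intro i hi
    have hi' : i ≤ m := Nat.lt_succ_iff.mp (mem_range.mp hi)
    have h2 := (((kl_pal α β).pow i).C_mul (A.coeff i)).mul ((kl_pal γ δ).pow (m - i))
    have h3 : 4 * i + 4 * (m - i) = 4 * m := by omega
    rwa [h3] at h2
  refine ⟨?_, h1.1, pal_coeff h1⟩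
  rw [← coe_compRingHom_apply, hg_map, hg]
  apply sum_congr rfl
  intro i _
  rw [coe_compRingHom_apply, coe_compRingHom_apply, kl_even, kl_even]
  simp

theorem hg_klein (k : ℕ) (A B : ℤ[X]) (α β γ δ : ℤ) :
    KleinInvariant (hg (4 * k) A (kl α β) (kl γ δ)) (hg (6 * k) B (kl α β) (kl γ δ)) := by
  refine ⟨2 * k, ?_, ?_⟩
  · have := hg_kl (4 * k) (4 * k) rfl A α β γ δ
    rwa [show 4 * (4 * k) = 8 * (2 * k) by ring] at this
  · have := hg_kl (6 * k) (6 * k) rfl B α β γ δ
    rwa [show 4 * (6 * k) = 12 * (2 * k) by ring] at this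

theorem toQ_C (c : ℤ) : toQ (C c) = (c : QX) := by
  have : toQ.comp C = Int.castRingHom QX := Subsingleton.elim _ _
  exact congrArg (fun f => f c) this

theorem toQ_X : toQ X = xx := by
  simp [toQ]

theorem toQ_injective : Function.Injective toQ := by
  intro P Q h
  have h1 : (P.map (Int.castRingHom ℚ)) = Q.map (Int.castRingHom ℚ) :=
    RatFunc.algebraMap_injective ℚ h
  exact Polynomial.map_injective _ (Int.cast_injective) h1

theorem toQ_ne_zero {P : ℤ[X]} (h : P ≠ 0) : toQ P ≠ 0 := by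
  intro h0
  apply h
  apply toQ_injective
  rw [h0, map_zero]

theorem toQ_kl (α β : ℤ) : toQ (kl α β) = (α : QX) * (xx ^ 4 + 1) + β * xx ^ 2 := by
  unfold kl
  simp only [map_add, map_mul, map_pow, map_one, toQ_C, toQ_X]

/-- The three substitutions are `X ↦ N/M`. -/
theorem toQ_sub_psi {α β γ δ : ℤ} (h : α * δ - β * γ ≠ 0) (A : ℤ[X]) :
    sub _ NC_sq (sub _ NC_eta (sub _ (NC_mob h) (toQ A))) =
      A.eval₂ (Int.castRingHom QX) (toQ (kl α β) / toQ (kl γ δ)) := by
  have hx := X_ne_zero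
  have hhom : ((sub _ NC_sq).comp ((sub _ NC_eta).comp (sub _ (NC_mob h)))).comp toQ =
      eval₂RingHom (Int.castRingHom QX) (toQ (kl α β) / toQ (kl γ δ)) := by
    apply Polynomial.ringHom_ext
    · intro a
      simp only [RingHom.comp_apply, toQ_C, map_intCast, coe_eval₂RingHom, eval₂_C, eq_intCast]
    · simp only [RingHom.comp_apply, toQ_X, coe_eval₂RingHom, eval₂_X, sub_X, toQ_kl]
      unfold mob
      simp only [map_div₀, map_add, map_mul, map_intCast, sub_X, map_one, map_pow]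
      rw [← mul_div_mul_right _ _ (pow_ne_zero 2 hx)]
      congr 1
      · field_simp
      · field_simp
  have := congrArg (fun f => f A) hhom
  simpa only [RingHom.comp_apply, coe_eval₂RingHom] using this

theorem toQ_comp_qd (A : ℤ[X]) : toQ (A.comp (X ^ 2 - 2)) = sub _ NC_qd (toQ A) := by
  have hhom : toQ.comp (compRingHom (X ^ 2 - 2)) = (sub _ NC_qd).comp toQ := by
    apply Polynomial.ringHom_ext
    · intro a
      simp only [RingHom.comp_apply, coe_compRingHom_apply, C_comp, toQ_C, map_intCast]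
    · simp only [RingHom.comp_apply, coe_compRingHom_apply, X_comp, toQ_X, sub_X, map_sub,
        map_pow, map_ofNat]
  have := congrArg (fun f => f A) hhom
  simpa only [RingHom.comp_apply, coe_compRingHom_apply] using this

theorem NC_shift (c : ℤ) : NC (xx + c) := by
  refine NC_div (X + C (c : ℚ)) 1 one_ne_zero (by simp) ?_
  intro c h
  have := congrArg (fun p => coeff p 1) h
  simp [-map_intCast, -eq_intCast, coeff_one, coeff_C] at this

theorem toQ_comp_shift (c : ℤ) (A : ℤ[X]) : toQ (A.comp (X + C c)) = sub _ (NC_shift c) (toQ A) := by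
  have hhom : toQ.comp (compRingHom (X + C c)) = (sub _ (NC_shift c)).comp toQ := by
    apply Polynomial.ringHom_ext
    · intro a
      simp only [RingHom.comp_apply, coe_compRingHom_apply, C_comp, toQ_C, map_intCast]
    · simp only [RingHom.comp_apply, coe_compRingHom_apply, X_comp, toQ_X, sub_X, map_add, toQ_C]
  have := congrArg (fun f => f A) hhom
  simpa only [RingHom.comp_apply, coe_compRingHom_apply] using this

theorem shift_surj (c : ℤ) : Function.Surjective (sub _ (NC_shift c)) := by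
  intro f
  refine ⟨sub _ (NC_shift (-c)) f, ?_⟩
  rw [sub_sub]
  rw [sub_congr _ NC_X (by rw [map_add, sub_X, map_intCast]; push_cast; ring), sub_id]

end MPa4e5f3
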