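import Pool.Agent.Lib.MP_a4e5f3_nt.PointMap

/-!
# The rank of a short Weierstrass curve over a quadratic extension

For a quadratic extension `L = K(δ)`, `δ² = D ∈ K`, the rank of `E(L)` is the sum of the ranks of
`E(K)` and of `E^D(K)`, where `E^D` is the quadratic twist of `E` by `D`.
-/

namespace MPa4e5f3

open WeierstrassCurve WeierstrassCurve.Affine

section rank

theorem rank_eq_of_two {M N : Type} [AddCommGroup M] [AddCommGroup N] (f : M →+ N)
    (h1 : ∀ n : N, ∃ m, f m = n + n) (h2 : ∀ m, f m = 0 → m + m = 0) :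
    Module.rank ℤ M = Module.rank ℤ N := by
  have hk : Module.rank ℤ (LinearMap.ker f.toIntLinearMap) = 0 := by
    rw [Module.rank_eq_zero_iff_isTorsion]
    intro x
    refine ⟨⟨2, by simp⟩, ?_⟩
    apply Subtype.ext
    have h3 := h2 x.1 x.2
    change (2 : ℤ) • x.1 = 0
    rw [two_zsmul]
    exact h3
  have hq : Module.rank ℤ (N ⧸ LinearMap.range f.toIntLinearMap) = 0 := by
    rw [Module.rank_eq_zero_iff_isTorsion]
    intro x
    refine ⟨⟨2, by simp⟩, ?_⟩
    obtain ⟨n, rfl⟩ := Submodule.Quotient.mk_surjective _ x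
    obtain ⟨m, hm⟩ := h1 n
    change (2 : ℤ) • (Submodule.Quotient.mk n : N ⧸ LinearMap.range f.toIntLinearMap) = 0
    rw [← Submodule.Quotient.mk_smul, Submodule.Quotient.mk_eq_zero]
    refine ⟨m, ?_⟩
    change f m = (2 : ℤ) • n
    rw [two_zsmul]
    exact hm
  have e1 := LinearMap.rank_range_add_rank_ker f.toIntLinearMap
  have e2 := Submodule.rank_quotient_add_rank (LinearMap.range f.toIntLinearMap)
  rw [hk, add_zero] at e1
  rw [hq, zero_add] at e2
  rw [← e1, ← e2]

theorem rank_prod_int {M N : Type} [AddCommGroup M] [AddCommGroup N] :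
    Module.rank ℤ (M × N) = Module.rank ℤ M + Module.rank ℤ N := by
  have h := LinearMap.rank_eq_of_surjective (f := LinearMap.fst ℤ M N) LinearMap.fst_surjective
  rw [h]
  congr 1
  rw [LinearMap.ker_fst]
  exact (LinearEquiv.ofInjective (LinearMap.inr ℤ M N) LinearMap.inr_injective).rank_eq.symm

theorem rank_eq_of_injective_surjective {M N : Type} [AddCommGroup M] [AddCommGroup N] (f : M →+ N)
    (h1 : Function.Injective f) (h2 : Function.Surjective f) :
    Module.rank ℤ M = Module.rank ℤ N :=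
  (LinearEquiv.ofBijective f.toIntLinearMap ⟨h1, h2⟩).rank_eq

end rank

section

variable {K L : Type} [Field K] [Field L]

theorem nonsingular_of_map {a b : K} {a' b' : L} (φ : K →+* L) {u : L} (hu : u ≠ 0)
    (ha : φ a = u ^ 4 * a') (hb : φ b = u ^ 6 * b') {x y : K}
    (h : (sw a' b').Nonsingular (φ x / u ^ 2) (φ y / u ^ 3)) : (sw a b).Nonsingular x y := by
  rw [sw_nonsingular] at h ⊢
  obtain ⟨h1, h2⟩ := h
  refine ⟨?_, ?_⟩
  · apply φ.injective
    simp only [map_pow, map_add, map_mul]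
    rw [ha, hb]
    have h3 : (φ y / u ^ 3) ^ 2 * u ^ 6 = ((φ x / u ^ 2) ^ 3 + a' * (φ x / u ^ 2) + b') * u ^ 6 := by
      rw [h1]
    have h4 : (φ y / u ^ 3) ^ 2 * u ^ 6 = φ y ^ 2 := by field_simp
    have h5 : ((φ x / u ^ 2) ^ 3 + a' * (φ x / u ^ 2) + b') * u ^ 6 =
        φ x ^ 3 + u ^ 4 * a' * φ x + u ^ 6 * b' := by field_simp
    rw [← h4, h3, h5]
  · rcases h2 with h2 | h2
    · left
      intro h3
      apply h2
      have h5 : 3 * (φ x / u ^ 2) ^ 2 + a' = φ (3 * x ^ 2 + a) / u ^ 4 := by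
        simp only [map_pow, map_add, map_mul, map_ofNat]
        rw [ha]
        field_simp
      rw [h5, h3, map_zero, zero_div]
    · right
      intro h3
      apply h2
      have h5 : 2 * (φ y / u ^ 3) = φ (2 * y) / u ^ 3 := by
        simp only [map_mul, map_ofNat]
        ring
      rw [h5, h3, map_zero, zero_div]

variable [DecidableEq K] [DecidableEq L]

/-- The rank of the curve over a quadratic extension. -/
theorem rank_quadratic (ι : K →+* L) (σ : L →+* L) {δ : L} {D : K} (hδ : δ ≠ 0)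
    (hD : ι D = δ ^ 2) (hσι : ∀ x, σ (ι x) = ι x) (hσσ : ∀ x, σ (σ x) = x) (hσδ : σ δ = -δ)
    (hfix : ∀ x, σ x = x → ∃ y, ι y = x) (a b : K) :
    Module.rank ℤ (sw (ι a) (ι b)).Point =
      Module.rank ℤ (sw a b).Point + Module.rank ℤ (sw (D ^ 2 * a) (D ^ 3 * b)).Point := by
  have ia : ι a = 1 ^ 4 * ι a := by ring
  have ib : ι b = 1 ^ 6 * ι b := by ring
  have ja : ι (D ^ 2 * a) = δ ^ 4 * ι a := by rw [map_mul, map_pow, hD]; ring
  have jb : ι (D ^ 3 * b) = δ ^ 6 * ι b := by rw [map_mul, map_pow, hD]; ring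
  have sa : σ (ι a) = 1 ^ 4 * ι a := by rw [hσι]; ring
  have sb : σ (ι b) = 1 ^ 6 * ι b := by rw [hσι]; ring
  set i := pm ι one_ne_zero ia ib with hi
  set j := pm ι hδ ja jb with hj
  set s := pm σ one_ne_zero sa sb with hs
  have si : ∀ P, s (i P) = i P := by
    rintro (_ | ⟨x, y, h⟩)
    · rfl
    · rw [hi, pm_some, hs, pm_some, Point.some.injEq]
      constructor
      · simp [hσι]
      · simp [hσι]
  have sj : ∀ Q, s (j Q) = - j Q := by
    rintro (_ | ⟨x, y, h⟩)
    · rfl
    · rw [hj, pm_some, hs, pm_some, Point.neg_some, Point.some.injEq]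
      constructor
      · simp only [map_div₀, map_pow, hσι, hσδ]
        ring
      · simp only [map_div₀, map_pow, hσι, hσδ, sw_negY]
        have h3 : (-δ) ^ 3 = - δ ^ 3 := by ring
        rw [h3]
        field_simp
  have ss : ∀ R, s (s R) = R := by
    rintro (_ | ⟨x, y, h⟩)
    · rfl
    · rw [hs, pm_some, pm_some, Point.some.injEq]
      constructor
      · simp [hσσ]
      · simp [hσσ]
  have hi' : ∀ R, s R = R → ∃ P, i P = R := by
    rintro (_ | ⟨x, y, h⟩) hR
    · exact ⟨0, rfl⟩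
    · rw [hs, pm_some, Point.some.injEq] at hR
      obtain ⟨h1, h2⟩ := hR
      simp only [one_pow, div_one] at h1 h2
      obtain ⟨x', rfl⟩ := hfix x h1
      obtain ⟨y', rfl⟩ := hfix y h2
      refine ⟨Point.some x' y' (nonsingular_of_map ι one_ne_zero ia ib (by simpa using h)), ?_⟩
      rw [hi, pm_some, Point.some.injEq]
      simp
  have hj' : ∀ R, s R = - R → ∃ Q, j Q = R := by
    rintro (_ | ⟨x, y, h⟩) hR
    · exact ⟨0, rfl⟩
    · rw [hs, pm_some, Point.neg_some, Point.some.injEq, sw_negY] at hR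
      obtain ⟨h1, h2⟩ := hR
      simp only [one_pow, div_one] at h1 h2
      obtain ⟨x', rfl⟩ := hfix x h1
      obtain ⟨y', hy'⟩ := hfix (y * δ ^ 3) (by
        rw [map_mul, map_pow, h2, hσδ]; ring)
      have e1 : ι (D * x') / δ ^ 2 = ι x' := by
        rw [map_mul, hD]; field_simp
      have e2 : ι y' / δ ^ 3 = y := by
        rw [hy']; field_simp
      refine ⟨Point.some (D * x') y' (nonsingular_of_map ι hδ ja jb (by rw [e1, e2]; exact h)), ?_⟩
      rw [hj, pm_some, Point.some.injEq]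
      exact ⟨e1, e2⟩
  rw [← rank_prod_int]
  symm
  refine rank_eq_of_two (AddMonoidHom.coprod i j) ?_ ?_
  · intro R
    obtain ⟨P, hP⟩ := hi' (R + s R) (by rw [map_add, ss, add_comm])
    obtain ⟨Q, hQ⟩ := hj' (R - s R) (by rw [map_sub, ss, neg_sub])
    refine ⟨(P, Q), ?_⟩
    rw [AddMonoidHom.coprod_apply, hP, hQ]
    abel
  · rintro ⟨P, Q⟩ h
    rw [AddMonoidHom.coprod_apply] at h
    simp only at h
    have h1 : i P - j Q = 0 := by
      have := congrArg s h
      rw [map_add, si, sj, map_zero] at this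
      rwa [sub_eq_add_neg]
    have hP : P + P = 0 := by
      apply pm_injective ι one_ne_zero ia ib
      rw [map_add, map_zero]
      have : i P + i P = (i P + j Q) + (i P - j Q) := by abel
      rw [← hi, this, h, h1, add_zero]
    have hQ : Q + Q = 0 := by
      apply pm_injective ι hδ ja jb
      rw [map_add, map_zero]
      have : j Q + j Q = (i P + j Q) - (i P - j Q) := by abel
      rw [← hj, this, h, h1, sub_zero]
    rw [Prod.mk_add_mk, hP, hQ]
    rfl

/-- Invariance of the rank under a field isomorphism combined with a scaling. -/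
theorem rank_iso {a b : K} {a' b' : L} (φ : K →+* L) (hφ : Function.Surjective φ) {u : L}
    (hu : u ≠ 0) (ha : φ a = u ^ 4 * a') (hb : φ b = u ^ 6 * b') :
    Module.rank ℤ (sw a b).Point = Module.rank ℤ (sw a' b').Point := by
  refine rank_eq_of_injective_surjective (pm φ hu ha hb) (pm_injective φ hu ha hb) ?_
  rintro (_ | ⟨x, y, h⟩)
  · exact ⟨0, rfl⟩
  · obtain ⟨x', hx⟩ := hφ (x * u ^ 2)
    obtain ⟨y', hy⟩ := hφ (y * u ^ 3)
    have e1 : φ x' / u ^ 2 = x := by rw [hx]; field_simp
    have e2 : φ y' / u ^ 3 = y := by rw [hy]; field_simp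
    refine ⟨Point.some x' y' (nonsingular_of_map φ hu ha hb (by rw [e1, e2]; exact h)), ?_⟩
    rw [pm_some, Point.some.injEq]
    exact ⟨e1, e2⟩

end

end MPa4e5f3
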