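import Pool.Agent.Lib.MP_a4e5f3_nt.Poly
import Pool.Agent.Lib.MP_a4e5f3_nt.Lin
import Pool.Agent.Lib.MP_a4e5f3_nt.Count

/-!
# Relations between the Nagao data of a surface and of its pull-backs
-/

namespace MPa4e5f3

open Polynomial Finset

instance factPrime (p : Nat.Primes) : Fact (p : ℕ).Prime := ⟨p.2⟩

/-- Evaluation at `t ∈ 𝔽_p`. -/
noncomputable def ev (p : ℕ) (t : ZMod p) : ℤ[X] →+* ZMod p :=
  eval₂RingHom (Int.castRingHom (ZMod p)) t

theorem ev_C (p : ℕ) (t : ZMod p) (c : ℤ) : ev p t (C c) = (c : ZMod p) := by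
  simp [ev]

theorem ev_X (p : ℕ) (t : ZMod p) : ev p t X = t := by
  simp [ev]

theorem ev_int (p : ℕ) (t : ℤ) (A : ℤ[X]) : ev p (t : ZMod p) A = ((A.eval t : ℤ) : ZMod p) := by
  have := Polynomial.eval₂_at_apply (p := A) (Int.castRingHom (ZMod p)) t
  exact this

theorem ev_kl (p : ℕ) (t : ZMod p) (α β : ℤ) :
    ev p t (kl α β) = (α : ZMod p) * (t ^ 4 + 1) + β * t ^ 2 := by
  unfold kl
  simp only [map_add, map_mul, map_pow, map_one, ev_C, ev_X]

theorem ev_comp (p : ℕ) (t : ZMod p) (A Q : ℤ[X]) : ev p t (A.comp Q) = ev p (ev p t Q) A := by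
  simp only [ev, coe_eval₂RingHom]
  rw [eval₂_comp]

/-- The sum over the fibres of the character sums. -/
noncomputable def TT (A B : ℤ[X]) (p : ℕ) [Fact p.Prime] : ℤ :=
  ∑ t : ZMod p, SS (ev p t A) (ev p t B)

theorem two_ne (p : ℕ) [Fact p.Prime] (h : ((2 : ℤ) : ZMod p) ≠ 0) : ringChar (ZMod p) ≠ 2 := by
  intro h0
  apply h
  have h1 := ringChar.Nat.cast_ringChar (R := ZMod p)
  rw [h0] at h1
  exact_mod_cast h1

theorem sum_range_zmod (p : ℕ) [Fact p.Prime] (f : ZMod p → ℂ) :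
    ∑ t ∈ range p, f (t : ZMod p) = ∑ t : ZMod p, f t := by
  apply sum_nbij' (fun t : ℕ => (t : ZMod p)) (fun t => t.val)
  · intro a _; exact mem_univ _
  · intro a _; exact mem_range.mpr (ZMod.val_lt a)
  · intro a ha; exact ZMod.val_cast_of_lt (mem_range.mp ha)
  · intro a _; exact ZMod.natCast_zmod_val a
  · intro a _; rfl

theorem trace_eq (A B : ℤ[X]) (p : ℕ) [Fact p.Prime] (h : ((2 : ℤ) : ZMod p) ≠ 0) (t : ℕ) :
    trace A B p t = - SS (ev p (t : ZMod p) A) (ev p (t : ZMod p) B) := by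
  have h1 : ev p (t : ZMod p) A = ((A.eval (t : ℤ) : ℤ) : ZMod p) := by
    rw [← ev_int]; simp
  have h2 : ev p (t : ZMod p) B = ((B.eval (t : ℤ) : ℤ) : ZMod p) := by
    rw [← ev_int]; simp
  rw [h1, h2]
  unfold trace numPoints
  have h3 := card_curve (two_ne p h) ((A.eval (t : ℤ) : ℤ) : ZMod p) ((B.eval (t : ℤ) : ℤ) : ZMod p)
  rw [ZMod.card] at h3
  rw [Nat.card_eq_fintype_card, Fintype.card_subtype]
  push_cast
  rw [h3]
  ring

theorem fibralAverage_eq (A B : ℤ[X]) (p : ℕ) [Fact p.Prime] (h : ((2 : ℤ) : ZMod p) ≠ 0) :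
    fibralAverage A B p = -(TT A B p : ℂ) / (p : ℂ) := by
  unfold fibralAverage TT
  have h2 := sum_range_zmod p (fun t : ZMod p => -((SS (ev p t A) (ev p t B) : ℤ) : ℂ))
  have h1 : ∑ t ∈ range p, (trace A B p t : ℂ) =
      ∑ t : ZMod p, -((SS (ev p t A) (ev p t B) : ℤ) : ℂ) := by
    rw [← h2]
    apply sum_congr rfl
    intro t _
    rw [trace_eq A B p h t]
    push_cast
    rfl
  rw [h1, sum_neg_distrib]
  push_cast
  ring

/-- The Nagao data of a surface. -/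
noncomputable def vec (A B : ℤ[X]) : VV :=
  (fun p => -(TT A B p : ℂ) / ((p : ℕ) : ℂ), (Cardinal.toNat (rk (toQ A) (toQ B)) : ℂ))

/-- The data of a fibre. -/
noncomputable def fib (A B : ℤ[X]) (c : ℤ) : VV :=
  (fun p => -(SS (ev p c A) (ev p c B) : ℂ) / ((p : ℕ) : ℂ), 0)

/-- The rank is finite. -/
def Fin' (A B : ℤ[X]) : Prop := rk (toQ A) (toQ B) < Cardinal.aleph0

theorem finite_bad {n : ℤ} (hn : n ≠ 0) : {p : Nat.Primes | ((n : ℤ) : ZMod (p : ℕ)) = 0}.Finite := by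
  have h1 : {p : Nat.Primes | ((n : ℤ) : ZMod (p : ℕ)) = 0} ⊆
      (fun p : Nat.Primes => (p : ℕ)) ⁻¹' {m | m ≤ n.natAbs} := by
    intro p hp
    simp only [Set.mem_ofPred_eq, Set.mem_preimage] at hp ⊢
    rw [ZMod.intCast_zmod_eq_zero_iff_dvd, Int.natCast_dvd] at hp
    exact Nat.le_of_dvd (Int.natAbs_pos.mpr hn) hp
  exact ((Set.finite_le_nat _).preimage (fun _ _ _ _ h => Subtype.ext h)).subset h1

theorem mwr_eq (A B : ℤ[X]) : mordellWeilRank A B = rk (toQ A) (toQ B) := rfl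

theorem data_eq (A B : ℤ[X]) :
    qq ((fun p => fibralAverage A B p), (Cardinal.toNat (rk (toQ A) (toQ B)) : ℂ)) =
      qq (vec A B) := by
  apply qq_eq_of_finite
  · apply (finite_bad (n := 2) two_ne_zero).subset
    intro p hp
    by_contra h
    apply hp
    exact fibralAverage_eq A B p h
  · rfl

theorem qq_of_nagao {A B : ℤ[X]} (h : AnalyticNagao A B) : qq (vec A B) = 0 ∧ Fin' A B := by
  obtain ⟨r, hr, h⟩ := h
  rw [mwr_eq] at hr
  constructor
  · rw [← data_eq, qq_eq_zero, hr]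
    simpa using h
  · unfold Fin'
    rw [hr]
    exact Cardinal.natCast_lt_aleph0

theorem nagao_of_qq {A B : ℤ[X]} (h : qq (vec A B) = 0) (hf : Fin' A B) : AnalyticNagao A B := by
  refine ⟨Cardinal.toNat (rk (toQ A) (toQ B)), ?_, ?_⟩
  · rw [mwr_eq, Cardinal.cast_toNat_of_lt_aleph0 hf]
  · rw [← data_eq, qq_eq_zero] at h
    exact h

/-- Square factors of the twist do not matter. -/
theorem qq_scale {c : ℤ} (hc : c ≠ 0) (A B : ℤ[X]) :
    qq (vec (C c ^ 4 * A) (C c ^ 6 * B)) = qq (vec A B) ∧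
      (Fin' (C c ^ 4 * A) (C c ^ 6 * B) ↔ Fin' A B) := by
  have h1 : rk (toQ (C c ^ 4 * A)) (toQ (C c ^ 6 * B)) = rk (toQ A) (toQ B) := by
    have h0 : toQ (C c) ≠ 0 := toQ_ne_zero (by rwa [Ne, C_eq_zero])
    rw [← rk_scale h0 (toQ A) (toQ B)]
    simp only [map_mul, map_pow]
  constructor
  · apply qq_eq_of_finite
    · apply (finite_bad (n := 2 * c) (mul_ne_zero two_ne_zero hc)).subset
      intro p hp
      by_contra h
      apply hp
      have h2 : ((2 : ℤ) : ZMod (p : ℕ)) ≠ 0 := by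
        intro h0; apply h
        rw [Set.mem_ofPred_eq, Int.cast_mul, h0, zero_mul]
      have h3 : ((c : ℤ) : ZMod (p : ℕ)) ≠ 0 := by
        intro h0; apply h
        rw [Set.mem_ofPred_eq, Int.cast_mul, h0, mul_zero]
      have h4 : TT (C c ^ 4 * A) (C c ^ 6 * B) p = TT A B p := by
        unfold TT
        apply sum_congr rfl
        intro t _
        rw [← SS_scale (two_ne p h2) h3 (ev p t A) (ev p t B)]
        simp only [map_mul, map_pow, ev_C]
      simp only [vec, h4]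
    · simp only [vec, h1]
  · unfold Fin'
    rw [h1]

/-- The data of the twist by `D`. -/
noncomputable def yy (D A B : ℤ[X]) : VV ⧸ WW := qq (vec (D ^ 2 * A) (D ^ 3 * B))

theorem yy_scale {c : ℤ} (hc : c ≠ 0) (D A B : ℤ[X]) : yy (C c ^ 2 * D) A B = yy D A B := by
  unfold yy
  rw [← (qq_scale hc (D ^ 2 * A) (D ^ 3 * B)).1]
  congr 2 <;> ring

theorem fin_scale {c : ℤ} (hc : c ≠ 0) (D A B : ℤ[X]) :
    Fin' ((C c ^ 2 * D) ^ 2 * A) ((C c ^ 2 * D) ^ 3 * B) ↔ Fin' (D ^ 2 * A) (D ^ 3 * B) := by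
  rw [← (qq_scale hc (D ^ 2 * A) (D ^ 3 * B)).2]
  have h1 : (C c ^ 2 * D) ^ 2 * A = C c ^ 4 * (D ^ 2 * A) := by ring
  have h2 : (C c ^ 2 * D) ^ 3 * B = C c ^ 6 * (D ^ 3 * B) := by ring
  rw [h1, h2]

/-- The three factors of the twists. -/
noncomputable def D1 (α β γ δ : ℤ) : ℤ[X] := C (δ - 2 * γ) * X - C β + C (2 * α)
noncomputable def D2 (α β γ δ : ℤ) : ℤ[X] := C (δ + 2 * γ) * X - C β - C (2 * α)
noncomputable def D3 (α γ : ℤ) : ℤ[X] := C α - C γ * X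

theorem TT_twist (D A B : ℤ[X]) (p : ℕ) [Fact p.Prime] (h : ((2 : ℤ) : ZMod p) ≠ 0) :
    TT (D ^ 2 * A) (D ^ 3 * B) p =
      ∑ t : ZMod p, quadraticChar (ZMod p) (ev p t D) * SS (ev p t A) (ev p t B) := by
  unfold TT
  apply sum_congr rfl
  intro t _
  rw [← SS_twist (two_ne p h)]
  simp only [map_mul, map_pow]

theorem TT_psi {A B : ℤ[X]} {α β γ δ : ℤ} {k : ℕ} (hA : A.natDegree < 4 * k)
    (hB : B.natDegree < 6 * k) (p : ℕ) [Fact p.Prime]
    (h2 : ((2 : ℤ) : ZMod p) ≠ 0) (hdet : ((α * δ - β * γ : ℤ) : ZMod p) ≠ 0) :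
    TT (hg (4 * k) A (kl α β) (kl γ δ)) (hg (6 * k) B (kl α β) (kl γ δ)) p =
      TT A B p + TT ((D1 α β γ δ * D3 α γ) ^ 2 * A) ((D1 α β γ δ * D3 α γ) ^ 3 * B) p
        + TT ((D2 α β γ δ * D3 α γ) ^ 2 * A) ((D2 α β γ δ * D3 α γ) ^ 3 * B) p
        + TT ((D1 α β γ δ * D2 α β γ δ) ^ 2 * A) ((D1 α β γ δ * D2 α β γ δ) ^ 3 * B) p
        - ∑ t : ZMod p, (if (α : ZMod p) - γ * t = 0 then 1 else 0) *
            SS (ev p t A) (ev p t B) := by
  have hF := two_ne p h2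
  rw [TT_twist _ _ _ p h2, TT_twist _ _ _ p h2, TT_twist _ _ _ p h2]
  have h3 : (α : ZMod p) * δ - β * γ ≠ 0 := by
    intro h0; apply hdet; push_cast; exact h0
  have h4 := sum_klein hF h3 (fun t => SS (ev p t A) (ev p t B))
  have h5 : TT (hg (4 * k) A (kl α β) (kl γ δ)) (hg (6 * k) B (kl α β) (kl γ δ)) p =
      ∑ z : ZMod p, (if (γ : ZMod p) * (z ^ 4 + 1) + δ * z ^ 2 = 0 then 0 else
      (fun t => SS (ev p t A) (ev p t B)) (((α : ZMod p) * (z ^ 4 + 1) + β * z ^ 2) /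
        (γ * (z ^ 4 + 1) + δ * z ^ 2))) := by
    unfold TT
    apply sum_congr rfl
    intro z _
    by_cases hM : ev p z (kl γ δ) = 0
    · rw [hg_zero (ev p z) _ _ hA hM, hg_zero (ev p z) _ _ hB hM, SS_zero hF, if_pos]
      rwa [ev_kl] at hM
    · rw [hg_div (ev p z) _ _ hA.le hM, hg_div (ev p z) _ _ hB.le hM]
      have e4 : ev p z (kl γ δ) ^ (4 * k) = (ev p z (kl γ δ) ^ k) ^ 4 := by
        rw [← pow_mul, mul_comm k 4]
      have e6 : ev p z (kl γ δ) ^ (6 * k) = (ev p z (kl γ δ) ^ k) ^ 6 := by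
        rw [← pow_mul, mul_comm k 6]
      rw [e4, e6, SS_scale hF (pow_ne_zero _ hM), if_neg (by rwa [ev_kl] at hM)]
      simp only [ev, coe_eval₂RingHom]
      have e7 := ev_kl p z γ δ
      have e8 := ev_kl p z α β
      simp only [ev, coe_eval₂RingHom] at e7 e8
      rw [e7, e8]
  rw [h5, h4]
  unfold TT
  rw [← sum_add_distrib, ← sum_add_distrib, ← sum_add_distrib, ← sum_sub_distrib]
  apply sum_congr rfl
  intro t _
  have g1 : ev p t (D1 α β γ δ) = (δ - 2 * γ) * t - β + 2 * α := by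
    unfold D1
    simp only [map_add, map_sub, map_mul, ev_C, ev_X]
    push_cast
    ring
  have g2 : ev p t (D2 α β γ δ) = (δ + 2 * γ) * t - β - 2 * α := by
    unfold D2
    simp only [map_add, map_sub, map_mul, ev_C, ev_X]
    push_cast
    ring
  have g3 : ev p t (D3 α γ) = α - γ * t := by
    unfold D3
    simp only [map_sub, map_mul, ev_C, ev_X]
  rw [map_mul (ev p t), map_mul (ev p t), map_mul (ev p t), g1, g2, g3]
  ring

theorem toQ_psi {A : ℤ[X]} {α β γ δ : ℤ} {k : ℕ} (hA : A.natDegree ≤ k)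
    (hdet : α * δ - β * γ ≠ 0) : toQ (hg k A (kl α β) (kl γ δ)) = toQ (kl γ δ) ^ k *
      sub _ NC_sq (sub _ NC_eta (sub _ (NC_mob hdet) (toQ A))) := by
  have hM : toQ (kl γ δ) ≠ 0 := by
    apply toQ_ne_zero
    intro h0
    have h1 := congrArg (fun P => coeff P 4) h0
    have h2 := congrArg (fun P => coeff P 2) h0
    simp [kl, -map_intCast, -eq_intCast, coeff_one, coeff_X_pow] at h1 h2
    apply hdet
    rw [h1, h2]; ring
  rw [hg_div toQ _ _ hA hM, toQ_sub_psi hdet]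

theorem rk_hg {A B : ℤ[X]} {α β γ δ : ℤ} {k : ℕ} (hA : A.natDegree < 4 * k)
    (hB : B.natDegree < 6 * k) (hdet : α * δ - β * γ ≠ 0) :
    rk (toQ (hg (4 * k) A (kl α β) (kl γ δ))) (toQ (hg (6 * k) B (kl α β) (kl γ δ))) =
      rk (toQ A) (toQ B) + rk (toQ ((D1 α β γ δ * D3 α γ) ^ 2 * A)) (toQ ((D1 α β γ δ * D3 α γ) ^ 3 * B))
        + rk (toQ ((D2 α β γ δ * D3 α γ) ^ 2 * A)) (toQ ((D2 α β γ δ * D3 α γ) ^ 3 * B))
        + rk (toQ ((D1 α β γ δ * D2 α β γ δ) ^ 2 * A)) (toQ ((D1 α β γ δ * D2 α β γ δ) ^ 3 * B)) := by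
  have hM : toQ (kl γ δ) ≠ 0 := by
    apply toQ_ne_zero
    intro h0
    have h1 := congrArg (fun P => coeff P 4) h0
    have h2 := congrArg (fun P => coeff P 2) h0
    simp [kl, -map_intCast, -eq_intCast, coeff_one, coeff_X_pow] at h1 h2
    apply hdet
    rw [h1, h2]; ring
  have g1 : toQ (D1 α β γ δ) = (δ - 2 * γ) * xx - β + 2 * α := by
    unfold D1
    simp only [map_add, map_sub, map_mul, toQ_C, toQ_X]
    push_cast
    ring
  have g2 : toQ (D2 α β γ δ) = (δ + 2 * γ) * xx - β - 2 * α := by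
    unfold D2
    simp only [map_add, map_sub, map_mul, toQ_C, toQ_X]
    push_cast
    ring
  have g3 : toQ (D3 α γ) = α - γ * xx := by
    unfold D3
    simp only [map_sub, map_mul, toQ_C, toQ_X]
  rw [toQ_psi hA.le hdet, toQ_psi hB.le hdet]
  have e4 : toQ (kl γ δ) ^ (4 * k) = (toQ (kl γ δ) ^ k) ^ 4 := by
    rw [← pow_mul, mul_comm k 4]
  have e6 : toQ (kl γ δ) ^ (6 * k) = (toQ (kl γ δ) ^ k) ^ 6 := by
    rw [← pow_mul, mul_comm k 6]
  rw [e4, e6, rk_scale (pow_ne_zero _ hM), rk_psi hdet]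
  simp only [map_mul, map_pow, g1, g2, g3]

end MPa4e5f3
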