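import Pool.Agent.Lib.MP_a4e5f3_nt.Rel

/-!
# Relations between the Nagao data of a surface and of its twists
-/

namespace MPa4e5f3

open Polynomial Finset

/-- The analytic Nagao property for the pull-backs of a surface by the Klein covers. -/
def HP (A B : ℤ[X]) : Prop := ∀ (α β γ δ : ℤ) (k : ℕ), α * δ - β * γ ≠ 0 →
  A.natDegree < 4 * k → B.natDegree < 6 * k →
  NonSplit (hg (4 * k) A (kl α β) (kl γ δ)) (hg (6 * k) B (kl α β) (kl γ δ)) →
  AnalyticNagao (hg (4 * k) A (kl α β) (kl γ δ)) (hg (6 * k) B (kl α β) (kl γ δ))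

/-- The discriminant does not vanish at `c`. -/
def Gd (A B : ℤ[X]) (c : ℤ) : Prop := (4 * A ^ 3 + 27 * B ^ 2).eval c ≠ 0

/-- `D` has a simple root at a point of good reduction. -/
def Rt (D A B : ℤ[X]) : Prop :=
  ∃ (c : ℤ) (D' : ℤ[X]), D = (X - C c) * D' ∧ D'.eval c ≠ 0 ∧ Gd A B c

theorem Rt_false {A B D : ℤ[X]} {α β : ℚ} (hD : Rt D A B)
    (h : TwC (toQ D) α β (toQ A) (toQ B)) : False := by
  obtain ⟨c, D', h1, h2, h3⟩ := hD
  refine TwC_false (A := A.map (Int.castRingHom ℚ)) (B := B.map (Int.castRingHom ℚ))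
    (D := D.map (Int.castRingHom ℚ)) (c := (c : ℚ)) (D' := D'.map (Int.castRingHom ℚ)) ?_ ?_ ?_ h
  · have h4 : (4 * (A.map (Int.castRingHom ℚ)) ^ 3 + 27 * (B.map (Int.castRingHom ℚ)) ^ 2) =
        (4 * A ^ 3 + 27 * B ^ 2).map (Int.castRingHom ℚ) := by
      simp only [Polynomial.map_add, Polynomial.map_mul, Polynomial.map_pow,
        Polynomial.map_ofNat]
    rw [h4]
    have h5 := Polynomial.eval_intCast_map (Int.castRingHom ℚ) (4 * A ^ 3 + 27 * B ^ 2) c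
    rw [h5, eq_intCast]
    exact Int.cast_ne_zero.mpr h3
  · rw [h1, Polynomial.map_mul, Polynomial.map_sub, Polynomial.map_X, Polynomial.map_C]
    rfl
  · have h5 := Polynomial.eval_intCast_map (Int.castRingHom ℚ) D' c
    rw [h5]
    simpa using h2

theorem toQ_D1 (α β γ δ : ℤ) : toQ (D1 α β γ δ) = (δ - 2 * γ) * xx - β + 2 * α := by
  unfold D1
  simp only [map_add, map_sub, map_mul, toQ_C, toQ_X]
  push_cast
  ring

theorem toQ_D2 (α β γ δ : ℤ) : toQ (D2 α β γ δ) = (δ + 2 * γ) * xx - β - 2 * α := by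
  unfold D2
  simp only [map_add, map_sub, map_mul, toQ_C, toQ_X]
  push_cast
  ring

theorem toQ_D3 (α γ : ℤ) : toQ (D3 α γ) = α - γ * xx := by
  unfold D3
  simp only [map_sub, map_mul, toQ_C, toQ_X]

theorem kl_ne {γ δ : ℤ} (h : γ ≠ 0 ∨ δ ≠ 0) : toQ (kl γ δ) ≠ 0 := by
  apply toQ_ne_zero
  intro h0
  have h1 := congrArg (fun P => coeff P 4) h0
  have h2 := congrArg (fun P => coeff P 2) h0
  simp [kl, -map_intCast, -eq_intCast, coeff_one, coeff_X_pow] at h1 h2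
  tauto

theorem cd_ne {α β γ δ : ℤ} (h : α * δ - β * γ ≠ 0) : γ ≠ 0 ∨ δ ≠ 0 := by
  by_contra h2
  push Not at h2
  apply h
  rw [h2.1, h2.2]; ring

theorem disc_toQ (A B : ℤ[X]) : toQ (4 * A ^ 3 + 27 * B ^ 2) = 4 * toQ A ^ 3 + 27 * toQ B ^ 2 := by
  simp only [map_add, map_mul, map_pow, map_ofNat]

theorem const_ne {A B : ℤ[X]} (hE : NonSplit A B) {a b : ℚ} (Φ : QX →+* QX) {v w : QX}
    (ha : Φ (toQ A) = v * RatFunc.C a) (hb : Φ (toQ B) = w * RatFunc.C b) : a ≠ 0 ∨ b ≠ 0 := by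
  by_contra h
  push Not at h
  rw [h.1, map_zero, mul_zero] at ha
  rw [h.2, map_zero, mul_zero] at hb
  have ha' : toQ A = 0 := Φ.injective (by rw [ha, map_zero])
  have hb' : toQ B = 0 := Φ.injective (by rw [hb, map_zero])
  have ha'' : A = 0 := toQ_injective (by rw [ha', map_zero])
  have hb'' : B = 0 := toQ_injective (by rw [hb', map_zero])
  apply hE.1
  rw [ha'', hb'']
  ring

theorem nonsplit_psi {A B : ℤ[X]} (hE : NonSplit A B) {α β γ δ : ℤ} {k : ℕ}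
    (hA : A.natDegree < 4 * k) (hB : B.natDegree < 6 * k) (hdet : α * δ - β * γ ≠ 0)
    (h13 : Rt (D1 α β γ δ * D3 α γ) A B) (h23 : Rt (D2 α β γ δ * D3 α γ) A B)
    (h12 : Rt (D1 α β γ δ * D2 α β γ δ) A B) :
    NonSplit (hg (4 * k) A (kl α β) (kl γ δ)) (hg (6 * k) B (kl α β) (kl γ δ)) := by
  have hM := kl_ne (cd_ne hdet)
  have e4 : toQ (kl γ δ) ^ (4 * k) = (toQ (kl γ δ) ^ k) ^ 4 := by
    rw [← pow_mul, mul_comm k 4]
  have e6 : toQ (kl γ δ) ^ (6 * k) = (toQ (kl γ δ) ^ k) ^ 6 := by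
    rw [← pow_mul, mul_comm k 6]
  set Φ : QX →+* QX := (sub _ NC_sq).comp ((sub _ NC_eta).comp (sub _ (NC_mob hdet))) with hΦ
  have gA : toQ (hg (4 * k) A (kl α β) (kl γ δ)) = (toQ (kl γ δ) ^ k) ^ 4 * Φ (toQ A) := by
    rw [toQ_psi hA.le hdet, e4]; rfl
  have gB : toQ (hg (6 * k) B (kl α β) (kl γ δ)) = (toQ (kl γ δ) ^ k) ^ 6 * Φ (toQ B) := by
    rw [toQ_psi hB.le hdet, e6]; rfl
  have hMk : toQ (kl γ δ) ^ k ≠ 0 := pow_ne_zero _ hM
  constructor
  · intro h0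
    have h1 := congrArg toQ h0
    rw [disc_toQ, gA, gB, map_zero] at h1
    have h2 : (toQ (kl γ δ) ^ k) ^ 12 * Φ (toQ (4 * A ^ 3 + 27 * B ^ 2)) = 0 := by
      rw [disc_toQ]
      simp only [map_add, map_mul, map_pow, map_ofNat]
      rw [← h1]; ring
    rcases mul_eq_zero.mp h2 with h3 | h3
    · exact pow_ne_zero _ hMk h3
    · have h4 : toQ (4 * A ^ 3 + 27 * B ^ 2) = 0 := Φ.injective (by rw [h3, map_zero])
      exact toQ_ne_zero hE.1 h4
  · rintro ⟨u, hu, a, b, ha, hb⟩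
    rw [gA] at ha
    rw [gB] at hb
    have ha' : Φ (toQ A) = (u / toQ (kl γ δ) ^ k) ^ 4 * RatFunc.C a := by
      rw [div_pow, div_mul_eq_mul_div, ← ha]
      field_simp
    have hb' : Φ (toQ B) = (u / toQ (kl γ δ) ^ k) ^ 6 * RatFunc.C b := by
      rw [div_pow, div_mul_eq_mul_div, ← hb]
      field_simp
    have hne := const_ne hE Φ ha' hb'
    rcases ns_psi hdet (div_ne_zero hu hMk) ha' hb' hne with h | h | h | h
    · obtain ⟨w, hw, h1, h2⟩ := h
      apply hE.2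
      refine ⟨w, hw, a, b, ?_, ?_⟩
      · rw [h1]; ring
      · rw [h2]; ring
    · rw [← toQ_D1, ← toQ_D3, ← map_mul] at h
      exact Rt_false h13 h
    · rw [← toQ_D2, ← toQ_D3, ← map_mul] at h
      exact Rt_false h23 h
    · rw [← toQ_D1, ← toQ_D2, ← map_mul] at h
      exact Rt_false h12 h

/-- The general relation. -/
theorem rel {A B : ℤ[X]} (H : HP A B) (hE : NonSplit A B) {α β γ δ : ℤ}
    (hdet : α * δ - β * γ ≠ 0)
    (h13 : Rt (D1 α β γ δ * D3 α γ) A B) (h23 : Rt (D2 α β γ δ * D3 α γ) A B)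
    (h12 : Rt (D1 α β γ δ * D2 α β γ δ) A B) (F : VV) (hF2 : F.2 = 0)
    (hF : {p : Nat.Primes | F.1 p ≠ -(((∑ t : ZMod (p : ℕ),
      (if (α : ZMod (p : ℕ)) - γ * t = 0 then 1 else 0) * SS (ev p t A) (ev p t B) : ℤ)) : ℂ)
        / ((p : ℕ) : ℂ)}.Finite) :
    qq (vec A B) + yy (D1 α β γ δ * D3 α γ) A B + yy (D2 α β γ δ * D3 α γ) A B
      + yy (D1 α β γ δ * D2 α β γ δ) A B = qq F ∧ Fin' A B ∧
      Fin' ((D1 α β γ δ * D3 α γ) ^ 2 * A) ((D1 α β γ δ * D3 α γ) ^ 3 * B) ∧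
      Fin' ((D2 α β γ δ * D3 α γ) ^ 2 * A) ((D2 α β γ δ * D3 α γ) ^ 3 * B) ∧
      Fin' ((D1 α β γ δ * D2 α β γ δ) ^ 2 * A) ((D1 α β γ δ * D2 α β γ δ) ^ 3 * B) := by
  set k := A.natDegree + B.natDegree + 1 with hk
  have hA : A.natDegree < 4 * k := by omega
  have hB : B.natDegree < 6 * k := by omega
  obtain ⟨h1, h2⟩ := qq_of_nagao (H α β γ δ k hdet hA hB
    (nonsplit_psi hE hA hB hdet h13 h23 h12))
  unfold Fin' at h2
  have h3 := rk_hg hA hB hdet
  rw [h3] at h2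
  have f4 := lt_of_le_of_lt (self_le_add_left _ _) h2
  have f123 := lt_of_le_of_lt (self_le_add_right _ _) h2
  have f3 := lt_of_le_of_lt (self_le_add_left _ _) f123
  have f12 := lt_of_le_of_lt (self_le_add_right _ _) f123
  have f2 := lt_of_le_of_lt (self_le_add_left _ _) f12
  have f1 := lt_of_le_of_lt (self_le_add_right _ _) f12
  refine ⟨?_, f1, f2, f3, f4⟩
  unfold yy
  rw [← map_add, ← map_add, ← map_add, ← sub_eq_zero, ← map_sub, ← h1]
  apply qq_eq_of_finite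
  · have hbad := (finite_bad (n := 2 * (α * δ - β * γ)) (mul_ne_zero two_ne_zero hdet)).union hF
    apply hbad.subset
    intro p hp
    by_contra h
    apply hp
    rw [Set.mem_union, not_or] at h
    obtain ⟨h5, h6⟩ := h
    rw [Set.mem_ofPred_eq, not_not] at h6
    have h7 : ((2 : ℤ) : ZMod (p : ℕ)) ≠ 0 := by
      intro h0; apply h5
      rw [Set.mem_ofPred_eq, Int.cast_mul, h0, zero_mul]
    have h8 : ((α * δ - β * γ : ℤ) : ZMod (p : ℕ)) ≠ 0 := by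
      intro h0; apply h5
      rw [Set.mem_ofPred_eq, Int.cast_mul, h0, mul_zero]
    have h9 := TT_psi hA hB (p : ℕ) h7 h8
    simp only [Prod.fst_sub, Prod.fst_add, Pi.sub_apply, Pi.add_apply, vec]
    rw [h6, h9]
    push_cast
    ring
  · simp only [Prod.snd_sub, Prod.snd_add, vec, hF2, h3]
    rw [Cardinal.toNat_add f123 f4, Cardinal.toNat_add f12 f3, Cardinal.toNat_add f1 f2]
    push_cast
    ring

end MPa4e5f3
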