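import Pool.Agent.Lib.MP_a4e5f3_nt.Subst

/-!
# The quadratic substitutions and their effect on the rank
-/

namespace MPa4e5f3

open Polynomial

theorem NC_div {f : QX} (p q : ℚ[X]) (hq : q ≠ 0) (hf : f = algebraMap ℚ[X] QX p / algebraMap ℚ[X] QX q)
    (h : ∀ c, p ≠ C c * q) : NC f := by
  rintro ⟨c, hc⟩
  apply h c
  apply RatFunc.algebraMap_injective ℚ
  have hq' : algebraMap ℚ[X] QX q ≠ 0 := by
    rw [Ne, FaithfulSMul.algebraMap_eq_zero_iff]; exact hq
  rw [hf, div_eq_iff hq'] at hc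
  rw [hc, map_mul, RatFunc.algebraMap_C]

theorem X_ne_zero : xx ≠ 0 := RatFunc.X_ne_zero

theorem NC_sq : NC (xx ^ 2) := by
  refine NC_div (X ^ 2) 1 one_ne_zero (by simp) ?_
  intro c h
  have := congrArg (fun p => coeff p 2) h
  simp at this

theorem NC_neg : NC (-xx) := by
  refine NC_div (-X) 1 one_ne_zero (by simp) ?_
  intro c h
  have := congrArg (fun p => coeff p 1) h
  simp at this

theorem NC_qd : NC (xx ^ 2 - 2) := by
  refine NC_div (X ^ 2 - C 2) 1 one_ne_zero (by simp) ?_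
  intro c h
  have := congrArg (fun p => coeff p 2) h
  simp at this

theorem NC_inv : NC (1 / xx) := by
  refine NC_div 1 X Polynomial.X_ne_zero (by simp) ?_
  intro c h
  have := congrArg (fun p => coeff p 0) h
  simp at this

theorem NC_eta : NC (xx + 1 / xx) := by
  refine NC_div (X ^ 2 + 1) X Polynomial.X_ne_zero ?_ ?_
  · have := X_ne_zero
    simp only [map_add, map_pow, RatFunc.algebraMap_X, map_one]
    field_simp
  · intro c h
    have := congrArg (fun p => coeff p 2) h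
    simp [coeff_one] at this

/-- The rank of the curve `y² = x³ + a x + b` over `ℚ(X)`. -/
noncomputable def rk (a b : QX) : Cardinal := by
  classical exact Module.rank ℤ (sw a b).Point

theorem rk_quadratic (ι σ : QX →+* QX) {δ : QX} {D : QX} (hδ : δ ≠ 0)
    (hD : ι D = δ ^ 2) (hι : σ (ι xx) = ι xx) (hσ : σ (σ xx) = xx) (hσδ : σ δ = -δ)
    (hX : ∃ u v, xx = ι u + ι v * δ) (a b : QX) :
    rk (ι a) (ι b) = rk a b + rk (D ^ 2 * a) (D ^ 3 * b) := by
  have h1 : ∀ x, σ (ι x) = ι x := by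
    have : σ.comp ι = ι := hom_ext hι
    intro x
    exact congrArg (fun f => f x) this
  have h2 : ∀ x, σ (σ x) = x := by
    have : σ.comp σ = RingHom.id QX := hom_ext hσ
    intro x
    exact congrArg (fun f => f x) this
  classical
  have := rank_quadratic ι σ hδ hD h1 h2 hσδ (fun x hx => fix_of_gen hD h1 hσδ hX x hx) a b
  unfold rk
  convert this

theorem rk_iso (φ : QX →+* QX) (hφ : Function.Surjective φ) {u : QX} (hu : u ≠ 0)
    {a b a' b' : QX} (ha : φ a = u ^ 4 * a') (hb : φ b = u ^ 6 * b') : rk a b = rk a' b' := by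
  classical
  have := rank_iso φ hφ hu ha hb
  unfold rk
  convert this

theorem rk_scale {g : QX} (hg : g ≠ 0) (a b : QX) : rk (g ^ 4 * a) (g ^ 6 * b) = rk a b :=
  rk_iso (RingHom.id QX) Function.surjective_id hg rfl rfl

theorem rk_sq (a b : QX) : rk (sub _ NC_sq a) (sub _ NC_sq b) =
    rk a b + rk (xx ^ 2 * a) (xx ^ 3 * b) := by
  refine rk_quadratic (sub _ NC_sq) (sub _ NC_neg) (δ := xx) X_ne_zero (sub_X _ _) ?_ ?_ ?_ ?_ a b
  · rw [sub_X, map_pow, sub_X]; ring
  · rw [sub_X, map_neg, sub_X]; ring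
  · rw [sub_X]
  · exact ⟨0, 1, by simp⟩

theorem rk_qd (a b : QX) : rk (sub _ NC_qd a) (sub _ NC_qd b) =
    rk a b + rk ((xx + 2) ^ 2 * a) ((xx + 2) ^ 3 * b) := by
  refine rk_quadratic (sub _ NC_qd) (sub _ NC_neg) (δ := xx) X_ne_zero ?_ ?_ ?_ ?_ ?_ a b
  · rw [map_add, sub_X, map_ofNat]; ring
  · rw [sub_X, map_sub, map_pow, sub_X, map_ofNat]; ring
  · rw [sub_X, map_neg, sub_X]; ring
  · rw [sub_X]
  · exact ⟨0, 1, by simp⟩

theorem eta_ne : xx - 1 / xx ≠ 0 := by
  intro h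
  have hx := X_ne_zero
  have h1 : xx ^ 2 = RatFunc.C 1 := by
    have : xx ^ 2 - 1 = 0 := by
      have h2 : xx ^ 2 - 1 = xx * (xx - 1 / xx) := by field_simp
      rw [h2, h, mul_zero]
    rw [map_one]
    linear_combination this
  exact NC_sq ⟨1, h1⟩

theorem rk_eta (a b : QX) : rk (sub _ NC_eta a) (sub _ NC_eta b) =
    rk a b + rk ((xx ^ 2 - 4) ^ 2 * a) ((xx ^ 2 - 4) ^ 3 * b) := by
  have hx := X_ne_zero
  refine rk_quadratic (sub _ NC_eta) (sub _ NC_inv) (δ := xx - 1 / xx) eta_ne ?_ ?_ ?_ ?_ ?_ a b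
  · rw [map_sub, map_pow, sub_X, map_ofNat]
    field_simp
    ring
  · rw [sub_X, map_add, map_div₀, map_one, sub_X]
    field_simp
    ring
  · rw [sub_X, map_div₀, map_one, sub_X]
    field_simp
  · rw [map_sub, map_div₀, map_one, sub_X]
    field_simp
    ring
  · refine ⟨xx / 2, 1 / 2, ?_⟩
    rw [map_div₀, map_div₀, sub_X, map_ofNat, map_one]
    field_simp
    ring

/-- A Möbius transformation with integral coefficients. -/
noncomputable def mob (α β γ δ : ℤ) : QX := ((α : QX) * xx + β) / ((γ : QX) * xx + δ)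

theorem lin_ne {γ δ : ℤ} (h : γ ≠ 0 ∨ δ ≠ 0) : ((γ : QX) * xx + δ) ≠ 0 := by
  intro h0
  have h1 : algebraMap ℚ[X] QX (C (γ : ℚ) * X + C (δ : ℚ)) = algebraMap ℚ[X] QX 0 := by
    rw [map_add, map_mul, RatFunc.algebraMap_X, RatFunc.algebraMap_C, RatFunc.algebraMap_C,
      map_zero]
    simpa using h0
  have h2 := RatFunc.algebraMap_injective ℚ h1
  have h3 := congrArg (fun p => coeff p 1) h2
  have h4 := congrArg (fun p => coeff p 0) h2
  simp [-map_intCast, -eq_intCast, coeff_C] at h3 h4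
  rcases h with h | h
  · exact h (by exact_mod_cast h3)
  · exact h (by exact_mod_cast h4)

theorem NC_mob {α β γ δ : ℤ} (h : α * δ - β * γ ≠ 0) : NC (mob α β γ δ) := by
  have hcd : γ ≠ 0 ∨ δ ≠ 0 := by
    by_contra h2
    push Not at h2
    apply h
    rw [h2.1, h2.2]; ring
  refine NC_div (C (α : ℚ) * X + C (β : ℚ)) (C (γ : ℚ) * X + C (δ : ℚ)) ?_ ?_ ?_
  · intro h0
    apply lin_ne hcd
    have := congrArg (algebraMap ℚ[X] QX) h0
    rw [map_add, map_mul, RatFunc.algebraMap_X, RatFunc.algebraMap_C, RatFunc.algebraMap_C,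
      map_zero] at this
    simpa using this
  · unfold mob
    simp [RatFunc.algebraMap_X]
  · intro c h0
    have h3 := congrArg (fun p => coeff p 1) h0
    have h4 := congrArg (fun p => coeff p 0) h0
    simp [-map_intCast, -eq_intCast, coeff_C] at h3 h4
    apply h
    have : ((α * δ - β * γ : ℤ) : ℚ) = 0 := by
      push_cast
      rw [h3, h4]; ring
    exact_mod_cast this

theorem mob_inv {α β γ δ : ℤ} (h : α * δ - β * γ ≠ 0) (h' : δ * α - -β * -γ ≠ 0) :
    sub _ (NC_mob h) (mob δ (-β) (-γ) α) = xx := by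
  have hcd : γ ≠ 0 ∨ δ ≠ 0 := by
    by_contra h2
    push Not at h2
    apply h
    rw [h2.1, h2.2]; ring
  have h1 := lin_ne hcd
  have h3 : ((α * δ - β * γ : ℤ) : QX) ≠ 0 := by exact_mod_cast h
  rw [show mob δ (-β) (-γ) α = ((δ : QX) * xx + (-β : ℤ)) / (((-γ : ℤ) : QX) * xx + α) from rfl]
  rw [map_div₀, map_add, map_add, map_mul, map_mul, map_intCast, map_intCast, map_intCast,
    map_intCast, sub_X]
  unfold mob
  have h4 : ((-γ : ℤ) : QX) * (((α : QX) * xx + β) / ((γ : QX) * xx + δ)) + α =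
      ((α * δ - β * γ : ℤ) : QX) / ((γ : QX) * xx + δ) := by
    push_cast
    field_simp
    ring
  have h5 : (δ : QX) * (((α : QX) * xx + β) / ((γ : QX) * xx + δ)) + (-β : ℤ) =
      ((α * δ - β * γ : ℤ) : QX) * xx / ((γ : QX) * xx + δ) := by
    rw [eq_div_iff h1, add_mul, mul_assoc, div_mul_cancel₀ _ h1]
    push_cast
    ring
  rw [h4, h5, div_div_div_cancel_right₀ h1, mul_div_cancel_left₀ _ h3]

theorem mob_surj {α β γ δ : ℤ} (h : α * δ - β * γ ≠ 0) :
    Function.Surjective (sub _ (NC_mob h)) := by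
  have h' : δ * α - -β * -γ ≠ 0 := by
    intro h0; apply h; linear_combination h0
  intro f
  refine ⟨sub _ (NC_mob h') f, ?_⟩
  rw [sub_sub]
  rw [sub_congr _ NC_X (mob_inv h h'), sub_id]

/-- The substitution `X ↦ μ(X² + X⁻²)` on the rank. -/
theorem rk_psi {α β γ δ : ℤ} (h : α * δ - β * γ ≠ 0) (a b : QX) :
    rk (sub _ NC_sq (sub _ NC_eta (sub _ (NC_mob h) a)))
      (sub _ NC_sq (sub _ NC_eta (sub _ (NC_mob h) b))) =
    rk a b
      + rk ((((δ - 2 * γ) * xx - β + 2 * α) * (α - γ * xx)) ^ 2 * a)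
          ((((δ - 2 * γ) * xx - β + 2 * α) * (α - γ * xx)) ^ 3 * b)
      + rk ((((δ + 2 * γ) * xx - β - 2 * α) * (α - γ * xx)) ^ 2 * a)
          ((((δ + 2 * γ) * xx - β - 2 * α) * (α - γ * xx)) ^ 3 * b)
      + rk ((((δ - 2 * γ) * xx - β + 2 * α) * ((δ + 2 * γ) * xx - β - 2 * α)) ^ 2 * a)
          ((((δ - 2 * γ) * xx - β + 2 * α) * ((δ + 2 * γ) * xx - β - 2 * α)) ^ 3 * b) := by
  have hx := X_ne_zero
  have h' : δ * α - -β * -γ ≠ 0 := by
    intro h0; apply h; linear_combination h0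
  have hcd : γ ≠ 0 ∨ δ ≠ 0 := by
    by_contra h2
    push Not at h2
    apply h
    rw [h2.1, h2.2]; ring
  have hac : γ ≠ 0 ∨ α ≠ 0 := by
    by_contra h2
    push Not at h2
    apply h
    rw [h2.1, h2.2]; ring
  have h3 : ((α : QX) - γ * xx) ≠ 0 := by
    have := lin_ne (γ := -γ) (δ := α) (by simpa using hac)
    intro h0
    apply this
    push_cast
    linear_combination h0
  set M := sub _ (NC_mob h) with hM
  set a1 := M a
  set b1 := M b
  -- invariance of twists under the Möbius transformation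
  have key : ∀ (W : QX) (V : QX), M W = V → rk (V ^ 2 * a1) (V ^ 3 * b1) = rk (W ^ 2 * a) (W ^ 3 * b) := by
    intro W V hW
    symm
    refine rk_iso M (mob_surj h) one_ne_zero ?_ ?_
    · rw [map_mul, map_pow, hW]; ring
    · rw [map_mul, map_pow, hW]; ring
  have key0 : rk a1 b1 = rk a b := by
    symm
    refine rk_iso M (mob_surj h) one_ne_zero ?_ ?_
    · ring
    · ring
  have hinv : M (mob δ (-β) (-γ) α) = xx := mob_inv h h'
  have hmob : mob δ (-β) (-γ) α = ((δ : QX) * xx - β) / ((α : QX) - γ * xx) := by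
    unfold mob
    push_cast
    congr 1 <;> ring
  -- the twist by `X + 2`
  have t1 : rk ((xx + 2) ^ 2 * a1) ((xx + 2) ^ 3 * b1) =
      rk ((((δ - 2 * γ) * xx - β + 2 * α) * (α - γ * xx)) ^ 2 * a)
          ((((δ - 2 * γ) * xx - β + 2 * α) * (α - γ * xx)) ^ 3 * b) := by
    rw [key (mob δ (-β) (-γ) α + 2) (xx + 2) (by rw [map_add, hinv, map_ofNat]), hmob,
      ← rk_scale h3]
    congr 1
    · field_simp
      ring
    · field_simp
      ring
  have t2 : rk ((xx - 2) ^ 2 * a1) ((xx - 2) ^ 3 * b1) =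
      rk ((((δ + 2 * γ) * xx - β - 2 * α) * (α - γ * xx)) ^ 2 * a)
          ((((δ + 2 * γ) * xx - β - 2 * α) * (α - γ * xx)) ^ 3 * b) := by
    rw [key (mob δ (-β) (-γ) α - 2) (xx - 2) (by rw [map_sub, hinv, map_ofNat]), hmob,
      ← rk_scale h3]
    congr 1
    · field_simp
      ring
    · field_simp
      ring
  have t3 : rk ((xx ^ 2 - 4) ^ 2 * a1) ((xx ^ 2 - 4) ^ 3 * b1) =
      rk ((((δ - 2 * γ) * xx - β + 2 * α) * ((δ + 2 * γ) * xx - β - 2 * α)) ^ 2 * a)
          ((((δ - 2 * γ) * xx - β + 2 * α) * ((δ + 2 * γ) * xx - β - 2 * α)) ^ 3 * b) := by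
    rw [key (mob δ (-β) (-γ) α ^ 2 - 4) (xx ^ 2 - 4)
      (by rw [map_sub, map_pow, hinv, map_ofNat]), hmob, ← rk_scale h3]
    congr 1
    · field_simp
      ring
    · field_simp
      ring
  have hx1 : xx + 1 ≠ 0 := by
    have := lin_ne (γ := 1) (δ := 1) (by simp)
    simpa using this
  have hx2 : xx + 2 ≠ 0 := by
    have := lin_ne (γ := 1) (δ := 2) (by simp)
    simpa using this
  -- the twist by `X`
  have t4 : rk (xx ^ 2 * sub _ NC_eta a1) (xx ^ 3 * sub _ NC_eta b1) =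
      rk (sub _ NC_eta ((xx + 2) ^ 2 * a1)) (sub _ NC_eta ((xx + 2) ^ 3 * b1)) := by
    rw [← rk_scale (g := (xx + 1) / xx) (div_ne_zero hx1 hx) (xx ^ 2 * sub _ NC_eta a1)]
    congr 1
    · rw [map_mul, map_pow, map_add, sub_X, map_ofNat]
      field_simp
      ring
    · rw [map_mul, map_pow, map_add, sub_X, map_ofNat]
      field_simp
      ring
  have t5 : rk ((xx ^ 2 - 4) ^ 2 * ((xx + 2) ^ 2 * a1)) ((xx ^ 2 - 4) ^ 3 * ((xx + 2) ^ 3 * b1)) =
      rk ((xx - 2) ^ 2 * a1) ((xx - 2) ^ 3 * b1) := by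
    rw [← rk_scale hx2 ((xx - 2) ^ 2 * a1)]
    congr 1
    · ring
    · ring
  rw [rk_sq, rk_eta, t4, rk_eta, t5, t1, t2, t3, key0]
  abel

end MPa4e5f3
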