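import Pool.Agent.Lib.MP_a4e5f3_nt.Rank

/-!
# Substitutions in `ℚ(X)`
-/

namespace MPa4e5f3

open Polynomial

/-- The field `ℚ(X)`. -/
abbrev QX : Type := RatFunc ℚ

/-- The variable of `ℚ(X)`. -/
noncomputable abbrev xx : QX := RatFunc.X

theorem hom_ext {L : Type*} [Field L] {φ φ' : QX →+* L} (h : φ xx = φ' xx) : φ = φ' := by
  apply IsLocalization.ringHom_ext (nonZeroDivisors ℚ[X])
  apply Polynomial.ringHom_ext
  · intro a
    have : (φ.comp (algebraMap ℚ[X] QX)).comp C = (φ'.comp (algebraMap ℚ[X] QX)).comp C :=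
      Subsingleton.elim _ _
    exact congrArg (fun f => f a) this
  · simpa using h

/-- The rational function `f` is not constant. -/
def NC (f : QX) : Prop := ¬ ∃ c : ℚ, f = RatFunc.C c

theorem eval₂_injective (f : QX) (hf : NC f) :
    Function.Injective (Polynomial.eval₂RingHom (RatFunc.C : ℚ →+* QX) f) := by
  have h := @transcendental_iff_injective ℚ QX _ _ (RatFunc.instAlgebraOfPolynomial ℚ ℚ) f
  exact h.mp (RatFunc.transcendental_of_ne_C f hf)

/-- The substitution `X ↦ f`. -/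
noncomputable def sub (f : QX) (hf : NC f) : QX →+* QX :=
  IsFractionRing.lift (A := ℚ[X]) (K := QX) (g := Polynomial.eval₂RingHom (RatFunc.C : ℚ →+* QX) f)
    (eval₂_injective f hf)

theorem sub_algebraMap (f : QX) (hf : NC f) (p : ℚ[X]) :
    sub f hf (algebraMap ℚ[X] QX p) = p.eval₂ (RatFunc.C : ℚ →+* QX) f :=
  IsFractionRing.lift_algebraMap _ _

theorem sub_X (f : QX) (hf : NC f) : sub f hf xx = f := by
  have := sub_algebraMap f hf X
  rwa [RatFunc.algebraMap_X, Polynomial.eval₂_X] at this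

theorem NC_X : NC xx := by
  rintro ⟨c, hc⟩
  have h2 : algebraMap ℚ[X] QX X = algebraMap ℚ[X] QX (C c) := by
    rw [RatFunc.algebraMap_X, RatFunc.algebraMap_C]
    exact hc
  have h3 := RatFunc.algebraMap_injective ℚ h2
  have h4 := congrArg Polynomial.natDegree h3
  rw [natDegree_X, natDegree_C] at h4
  exact one_ne_zero h4

theorem sub_C (f : QX) (hf : NC f) (c : ℚ) : sub f hf (RatFunc.C c) = RatFunc.C c := by
  have : (sub f hf).comp (RatFunc.C : ℚ →+* QX) = RatFunc.C := Subsingleton.elim _ _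
  exact congrArg (fun f => f c) this

theorem NC_sub {f g : QX} (hf : NC f) (hg : NC g) : NC (sub f hf g) := by
  rintro ⟨c, hc⟩
  apply hg
  refine ⟨c, ?_⟩
  apply (sub f hf).injective
  rw [hc, sub_C]

theorem sub_sub {f g : QX} (hf : NC f) (hg : NC g) (x : QX) :
    sub f hf (sub g hg x) = sub (sub f hf g) (NC_sub hf hg) x := by
  have : (sub f hf).comp (sub g hg) = sub (sub f hf g) (NC_sub hf hg) := by
    apply hom_ext
    rw [RingHom.comp_apply, sub_X, sub_X]
  exact congrArg (fun f => f x) this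

theorem sub_congr {f g : QX} (hf : NC f) (hg : NC g) (h : f = g) (x : QX) :
    sub f hf x = sub g hg x := by
  subst h; rfl

theorem sub_id (h : NC xx) (x : QX) : sub xx h x = x := by
  have : sub xx h = RingHom.id QX := by
    apply hom_ext
    rw [sub_X]; rfl
  rw [this]; rfl

/-- If `X` is of the form `ι u + ι v * δ` then so is every element. -/
theorem exists_of_gen {ι σ : QX →+* QX} {δ D : QX} (hD : ι D = δ ^ 2) (hσι : ∀ x, σ (ι x) = ι x)
    (hσδ : σ δ = -δ) (hX : ∃ u v, xx = ι u + ι v * δ) (f : QX) : ∃ u v, f = ι u + ι v * δ := by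
  have hC : ∀ c : ℚ, ι (RatFunc.C c) = RatFunc.C c := by
    intro c
    have : ι.comp (RatFunc.C : ℚ →+* QX) = RatFunc.C := Subsingleton.elim _ _
    exact congrArg (fun f => f c) this
  have hmul : ∀ f g : QX, (∃ u v, f = ι u + ι v * δ) → (∃ u v, g = ι u + ι v * δ) →
      ∃ u v, f * g = ι u + ι v * δ := by
    rintro f g ⟨u, v, rfl⟩ ⟨u', v', rfl⟩
    refine ⟨u * u' + v * v' * D, u * v' + v * u', ?_⟩
    rw [map_add, map_add, map_mul, map_mul, map_mul, map_mul, map_mul, hD]
    ring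
  have hadd : ∀ f g : QX, (∃ u v, f = ι u + ι v * δ) → (∃ u v, g = ι u + ι v * δ) →
      ∃ u v, f + g = ι u + ι v * δ := by
    rintro f g ⟨u, v, rfl⟩ ⟨u', v', rfl⟩
    refine ⟨u + u', v + v', ?_⟩
    rw [map_add, map_add]
    ring
  have hinv : ∀ f : QX, f ≠ 0 → (∃ u v, f = ι u + ι v * δ) → ∃ u v, f⁻¹ = ι u + ι v * δ := by
    rintro f hf ⟨u, v, hfuv⟩
    have h1 : σ f = ι u - ι v * δ := by
      rw [hfuv, map_add, map_mul, hσι, hσι, hσδ]; ring
    have h2 : σ f ≠ 0 := (map_ne_zero σ).mpr hf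
    have h3 : f * σ f = ι (u ^ 2 - v ^ 2 * D) := by
      rw [h1, hfuv, map_sub, map_mul, map_pow, map_pow, hD]; ring
    have h4 : ι (u ^ 2 - v ^ 2 * D) ≠ 0 := by
      rw [← h3]; exact mul_ne_zero hf h2
    refine ⟨u / (u ^ 2 - v ^ 2 * D), -v / (u ^ 2 - v ^ 2 * D), ?_⟩
    have h5 : f⁻¹ = σ f / ι (u ^ 2 - v ^ 2 * D) := by
      rw [← h3]; field_simp
    rw [h5, h1, map_div₀, map_div₀, map_neg]
    ring
  have hpoly : ∀ p : ℚ[X], ∃ u v, algebraMap ℚ[X] QX p = ι u + ι v * δ := by
    intro p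
    induction p using Polynomial.induction_on' with
    | add p q hp hq =>
      rw [map_add]
      exact hadd _ _ hp hq
    | monomial n a =>
      induction n with
      | zero =>
        refine ⟨RatFunc.C a, 0, ?_⟩
        rw [map_zero, zero_mul, add_zero, hC, Polynomial.monomial_zero_left, RatFunc.algebraMap_C]
      | succ n ih =>
        have : (Polynomial.monomial (n + 1) a : ℚ[X]) = Polynomial.monomial n a * X := by
          rw [Polynomial.monomial_mul_X]
        rw [this, map_mul, RatFunc.algebraMap_X]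
        exact hmul _ _ ih hX
  induction f using RatFunc.induction_on with
  | _ p q hq =>
    rw [div_eq_mul_inv]
    exact hmul _ _ (hpoly p) (hinv _ (by
      rw [Ne, FaithfulSMul.algebraMap_eq_zero_iff]; exact hq) (hpoly q))

theorem fix_of_gen {ι σ : QX →+* QX} {δ D : QX} (hD : ι D = δ ^ 2)
    (hσι : ∀ x, σ (ι x) = ι x)
    (hσδ : σ δ = -δ) (hX : ∃ u v, xx = ι u + ι v * δ) (f : QX) (hf : σ f = f) :
    ∃ u, ι u = f := by
  obtain ⟨u, v, huv⟩ := exists_of_gen hD hσι hσδ hX f
  have h1 : σ f = ι u - ι v * δ := by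
    rw [huv, map_add, map_mul, hσι, hσι, hσδ]; ring
  have h2 : ι v * δ = 0 := by
    have : (2 : QX) * (ι v * δ) = 0 := by
      have h3 : ι u - ι v * δ = ι u + ι v * δ := by rw [← h1, hf, huv]
      linear_combination -h3
    rcases mul_eq_zero.mp this with h | h
    · exact absurd h (by norm_num)
    · exact h
  exact ⟨u, by rw [huv, h2, add_zero]⟩

end MPa4e5f3
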